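import Pool.Agent.Zk36.TT.Mom

/-!
# Exploration path: counting
-/

set_option autoImplicit false

namespace Pool.Agent.Zk36.TT

open H974 Finset H342P H984P H984N H984P.SideAux Pool.Agent.W92.DP H12S H389NS

open Classical in
/-- the edges examined during the first `k` steps -/
noncomputable def disc (D : Dm) (F : Finset Edg) (k : ℕ) : Finset Edg :=
  (Finset.range k).image (fun i => ae (D.walk F i))

open Classical in
/-- the open ones -/
noncomputable def discO (D : Dm) (F : Finset Edg) (k : ℕ) : Finset Edg :=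
  (disc D F k).filter (fun e => e ∈ D.cfg F)

variable {D : Dm} {F : Finset Edg} {e : Edg}

theorem mem_disc {k : ℕ} : e ∈ disc D F k ↔ ∃ i < k, ae (D.walk F i) = e := by
  unfold disc
  simp

theorem mem_disc' {k : ℕ} (hk : k ≤ D.len F) : e ∈ disc D F k ↔ Pre D F e k := by
  rw [mem_disc]
  unfold Pre At
  constructor
  · rintro ⟨i, h1, h2⟩
    exact ⟨i, h1, by omega, h2⟩
  · rintro ⟨i, h1, -, h2⟩
    exact ⟨i, h1, h2⟩

theorem disc_mono {k l : ℕ} (h : k ≤ l) : disc D F k ⊆ disc D F l := by
  intro e he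
  rw [mem_disc] at he ⊢
  obtain ⟨i, h1, h2⟩ := he
  exact ⟨i, by omega, h2⟩

theorem card_disc_zero (D : Dm) (F : Finset Edg) : (disc D F 0).card = 0 := by
  unfold disc
  simp

theorem card_disc_le {k l : ℕ} (h : k ≤ l) : (disc D F l).card ≤ (disc D F k).card + (l - k) := by
  classical
  have h1 : disc D F l ⊆ disc D F k ∪ (Finset.Ico k l).image (fun i => ae (D.walk F i)) := by
    intro e he
    rw [mem_disc] at he
    obtain ⟨i, h1, h2⟩ := he
    rw [Finset.mem_union, mem_disc, Finset.mem_image]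
    rcases lt_or_ge i k with h3 | h3
    · exact Or.inl ⟨i, h3, h2⟩
    · exact Or.inr ⟨i, Finset.mem_Ico.2 ⟨h3, h1⟩, h2⟩
  refine (Finset.card_le_card h1).trans ((Finset.card_union_le _ _).trans ?_)
  refine Nat.add_le_add_left (Finset.card_image_le.trans ?_) _
  rw [Nat.card_Ico]

theorem discO_mono {k l : ℕ} (h : k ≤ l) : discO D F k ⊆ discO D F l := by
  classical
  unfold discO
  exact Finset.filter_subset_filter _ (disc_mono h)

theorem card_discO_le {k l : ℕ} (h : k ≤ l) :
    (discO D F l).card + (disc D F k).card ≤ (discO D F k).card + (disc D F l).card := by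
  classical
  have h1 : discO D F l \ discO D F k ⊆ disc D F l \ disc D F k := by
    intro e he
    unfold discO at he
    rw [Finset.mem_sdiff, Finset.mem_filter, Finset.mem_filter] at he
    rw [Finset.mem_sdiff]
    tauto
  have h2 := Finset.card_le_card h1
  rw [Finset.card_sdiff_of_subset (discO_mono h), Finset.card_sdiff_of_subset (disc_mono h)] at h2
  have h3 := Finset.card_le_card (discO_mono (D := D) (F := F) h)
  have h4 := Finset.card_le_card (disc_mono (D := D) (F := F) h)
  omega

/-- the term of the edge `e` -/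
noncomputable def tt (D : Dm) (F : Finset Edg) (k : ℕ) (e : Edg) : ℝ :=
  3 * ind (¬ Pre D F e k) - 2 * cnt D F e k

theorem total {k : ℕ} (hk : k ≤ D.len F) :
    3 * (((disc D F (D.len F)).card : ℝ) - (disc D F k).card) - 2 * ((D.len F : ℝ) - k) =
      ∑ e ∈ disc D F (D.len F), tt D F k e := by
  classical
  have h1 : ((disc D F (D.len F)).card : ℝ) - (disc D F k).card =
      ∑ e ∈ disc D F (D.len F), ind (¬ Pre D F e k) := by
    have h2 := Finset.card_sdiff_add_card_eq_card (disc_mono (D := D) (F := F) hk)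
    have h3 : ((disc D F (D.len F) \ disc D F k).card : ℝ) =
        ∑ e ∈ disc D F (D.len F), ind (¬ Pre D F e k) := by
      rw [Finset.card_eq_sum_ones, Finset.sdiff_eq_filter, Finset.sum_filter]
      push_cast
      refine Finset.sum_congr rfl fun e _ => ?_
      by_cases h : Pre D F e k
      · rw [ind_not_of (not_not.2 h), if_neg (not_not.2 ((mem_disc' hk).2 h))]
      · rw [ind_of h, if_pos (fun h' => h ((mem_disc' hk).1 h'))]
    rw [← h3, ← h2]
    push_cast
    ring
  have h2 : ((D.len F : ℝ) - k) = ∑ e ∈ disc D F (D.len F), (cnt D F e k : ℝ) := by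
    have h3 := Finset.card_eq_sum_card_fiberwise (s := Finset.Ico k (D.len F))
      (f := fun i => ae (D.walk F i)) (t := disc D F (D.len F)) (by
        intro i hi
        have := Finset.mem_Ico.1 hi
        exact mem_disc.2 ⟨i, this.2, rfl⟩)
    rw [Nat.card_Ico] at h3
    rw [← Nat.cast_sub hk, h3]
    push_cast
    rfl
  rw [h1, h2, Finset.mul_sum, Finset.mul_sum, ← Finset.sum_sub_distrib]
  rfl

theorem tt_int (hD : D.Ok) (hF : F ⊆ D.edges) {k : ℕ} (he : e ∈ disc D F (D.len F)) :
    |tt D F k e - xi D k e F| ≤ 2 * ind (Rk D F e k) := by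
  have hR := ind_nonneg (P := Rk D F e k)
  rcases tricho D F e with h | ⟨i, h⟩ | ⟨i, l, h⟩
  · exfalso
    obtain ⟨i, -, hi⟩ := (mem_disc' le_rfl).1 he
    exact h i hi
  · rw [xi_once h]
    unfold tt
    rw [cnt_once h]
    by_cases hk : k ≤ i
    · have hp : ¬ Pre D F e k := by
        rintro ⟨j, h1, h2⟩
        have := h.2 j h2
        omega
      rw [if_pos hk, if_pos hk, ind_of hp]
      norm_num
      exact hR
    · have hp : ¬ ¬ Pre D F e k := not_not.2 ⟨i, by omega, h.1⟩
      rw [if_neg hk, if_neg hk, ind_not_of hp]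
      norm_num
      exact hR
  · rw [xi_twice hD hF h]
    unfold tt
    rw [cnt_twice hD hF h]
    by_cases hk : k ≤ i
    · have hp : ¬ Pre D F e k := by
        rintro ⟨j, h1, h2⟩
        have := (h.iff hD hF j).1 h2
        have := h.1
        omega
      rw [if_pos hk, if_pos hk, ind_of hp]
      norm_num
      exact hR
    · have hp : ¬ ¬ Pre D F e k := not_not.2 ⟨i, by omega, h.2.1⟩
      rw [if_neg hk, if_neg hk, ind_not_of hp]
      by_cases hl : k ≤ l
      · have : Rk D F e k := ⟨i, l, by omega, hl, h.2.1, h.2.2⟩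
        rw [if_pos hl, ind_of this]
        norm_num
      · rw [if_neg hl]
        norm_num
        exact hR

theorem tt_all (hD : D.Ok) (hF : F ⊆ D.edges) (k : ℕ) (he : e ∈ disc D F (D.len F)) :
    |tt D F k e| ≤ 2 * cnt D F e 0 := by
  rcases tricho D F e with h | ⟨i, h⟩ | ⟨i, l, h⟩
  · exfalso
    obtain ⟨i, -, hi⟩ := (mem_disc' le_rfl).1 he
    exact h i hi
  · unfold tt
    rw [cnt_once h, cnt_once h, if_pos (Nat.zero_le i)]
    by_cases hk : k ≤ i
    · have hp : ¬ Pre D F e k := by
        rintro ⟨j, h1, h2⟩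
        have := h.2 j h2
        omega
      rw [if_pos hk, ind_of hp]
      norm_num
    · have hp : ¬ ¬ Pre D F e k := not_not.2 ⟨i, by omega, h.1⟩
      rw [if_neg hk, ind_not_of hp]
      norm_num
  · unfold tt
    rw [cnt_twice hD hF h, cnt_twice hD hF h, if_pos (Nat.zero_le i)]
    by_cases hk : k ≤ i
    · have hp : ¬ Pre D F e k := by
        rintro ⟨j, h1, h2⟩
        have := (h.iff hD hF j).1 h2
        have := h.1
        omega
      rw [if_pos hk, ind_of hp]
      norm_num
    · have hp : ¬ ¬ Pre D F e k := not_not.2 ⟨i, by omega, h.2.1⟩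
      rw [if_neg hk, ind_not_of hp]
      split_ifs <;> norm_num

theorem Bn_eq (D : Dm) (F : Finset Edg) (ρ : ℕ) :
    Bn D ρ F = ∑ e ∈ disc D F (D.len F), ind (e ∉ I D ρ) * cnt D F e 0 := by
  classical
  unfold Bn
  rw [← Finset.sum_fiberwise_of_maps_to (s := Finset.range (D.len F)) (t := disc D F (D.len F))
    (g := fun i => ae (D.walk F i)) (fun i hi => mem_disc.2 ⟨i, Finset.mem_range.1 hi, rfl⟩)]
  refine Finset.sum_congr rfl fun e _ => ?_
  have h1 : ∑ i ∈ (Finset.range (D.len F)).filter (fun i => ae (D.walk F i) = e),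
      ind (ae (D.walk F i) ∉ I D ρ) = ∑ i ∈ (Finset.range (D.len F)).filter
        (fun i => ae (D.walk F i) = e), ind (e ∉ I D ρ) := by
    refine Finset.sum_congr rfl fun i hi => ?_
    rw [(Finset.mem_filter.1 hi).2]
  rw [h1, Finset.sum_const, nsmul_eq_mul, mul_comm]
  congr 2
  unfold cnt
  congr 1
  rw [Finset.range_eq_Ico]

/-- the number of new edges against the number of steps -/
theorem count (hD : D.Ok) (hF : F ⊆ D.edges) (ρ : ℕ) {k : ℕ} (hk : k ≤ D.len F) :
    |3 * (((disc D F (D.len F)).card : ℝ) - (disc D F k).card) - 2 * ((D.len F : ℝ) - k)| ≤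
      |W D ρ k F| + 2 * rr D ρ k F + 2 * Bn D ρ F := by
  classical
  rw [total hk]
  have h1 : W D ρ k F = ∑ e ∈ disc D F (D.len F), ind (e ∈ I D ρ) * xi D k e F := by
    unfold W
    have h2 : ∑ e ∈ I D ρ, xi D k e F = ∑ e ∈ I D ρ ∩ disc D F (D.len F), xi D k e F := by
      symm
      apply Finset.sum_subset Finset.inter_subset_left
      intro e he hne
      apply xi_none
      intro i hi
      apply hne
      rw [Finset.mem_inter]
      exact ⟨he, (mem_disc' le_rfl).2 ⟨i, hi.1, hi⟩⟩
    rw [h2, Finset.inter_comm, ← Finset.filter_mem_eq_inter, Finset.sum_filter]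
    refine Finset.sum_congr rfl fun e _ => ?_
    split_ifs with h
    · rw [ind_of h, one_mul]
    · rw [ind_not_of h, zero_mul]
  have h2 : ∑ e ∈ disc D F (D.len F), ind (e ∈ I D ρ) * ind (Rk D F e k) ≤ rr D ρ k F := by
    unfold rr
    have h3 : ∑ e ∈ disc D F (D.len F), ind (e ∈ I D ρ) * ind (Rk D F e k) =
        ∑ e ∈ I D ρ ∩ disc D F (D.len F), ind (Rk D F e k) := by
      rw [Finset.inter_comm, ← Finset.filter_mem_eq_inter, Finset.sum_filter]
      refine Finset.sum_congr rfl fun e _ => ?_
      split_ifs with h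
      · rw [ind_of h, one_mul]
      · rw [ind_not_of h, zero_mul]
    rw [h3]
    exact Finset.sum_le_sum_of_subset_of_nonneg Finset.inter_subset_left
      fun e _ _ => ind_nonneg _
  have h3 : |∑ e ∈ disc D F (D.len F), tt D F k e - W D ρ k F| ≤
      ∑ e ∈ disc D F (D.len F), (2 * (ind (e ∈ I D ρ) * ind (Rk D F e k)) +
        2 * (ind (e ∉ I D ρ) * cnt D F e 0)) := by
    rw [h1, ← Finset.sum_sub_distrib]
    refine (Finset.abs_sum_le_sum_abs _ _).trans (Finset.sum_le_sum fun e he => ?_)
    by_cases hI : e ∈ I D ρ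
    · rw [ind_of hI, ind_not_of (not_not.2 hI)]
      have := tt_int hD hF (k := k) he
      rw [one_mul, one_mul, zero_mul, mul_zero, add_zero]
      exact this
    · rw [ind_not_of hI, ind_of hI]
      have := tt_all hD hF k he
      simp only [zero_mul, sub_zero, mul_zero, zero_add, one_mul]
      exact this
  rw [Finset.sum_add_distrib, ← Finset.mul_sum, ← Finset.mul_sum, ← Bn_eq] at h3
  have h4 : |∑ e ∈ disc D F (D.len F), tt D F k e| ≤
      |∑ e ∈ disc D F (D.len F), tt D F k e - W D ρ k F| + |W D ρ k F| := by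
    have := abs_add_le (∑ e ∈ disc D F (D.len F), tt D F k e - W D ρ k F) (W D ρ k F)
    rwa [sub_add_cancel] at this
  linarith

end Pool.Agent.Zk36.TT
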