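import Pool.Agent.Zk36.TT.Pair
import Pool.Agent.W92.DP.Dich
import Pool.Agent.H984R4.NP.SumB

/-!
# Exploration path: excursions and covariances
-/

set_option autoImplicit false

namespace Pool.Agent.Zk36.TT

open H974 Finset H342P H984P H984N H984P.SideAux Pool.Agent.W92.DP H12S H389NS

theorem okh : Ok (fun _ : Edg => (1/2:ℝ)) := fun _ => ⟨by norm_num, by norm_num⟩

/-- the change of the state of an edge preserves the law -/
theorem E_flip {S : Finset Edg} {e : Edg} (he : e ∈ S) (g : Finset Edg → ℝ) :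
    E S (fun F => g (flip e F)) = E S g := by
  rw [Ex_half, Ex_half]
  congr 1
  refine Finset.sum_nbij' (fun F => flip e F) (fun F => flip e F) ?_ ?_ ?_ ?_ ?_
  · intro F hF
    exact Finset.mem_powerset.2 (flip_sub he (Finset.mem_powerset.1 hF))
  · intro F hF
    exact Finset.mem_powerset.2 (flip_sub he (Finset.mem_powerset.1 hF))
  · intro F _
    exact flip_flip e F
  · intro F _
    exact flip_flip e F
  · intro F _
    rfl

theorem P_flip {S : Finset Edg} {e : Edg} (he : e ∈ S) (A : Finset Edg → Prop) :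
    P S (fun F => A (flip e F)) = P S A := E_flip he (fun F => ind (A F))

theorem E_abs (S : Finset Edg) (g : Finset Edg → ℝ) : |E S g| ≤ E S (fun F => |g F|) := by
  rw [abs_le]
  constructor
  · rw [← neg_le_neg_iff, neg_neg]
    have : -E S g = E S (fun F => -1 * g F) := by
      unfold E
      rw [Ex_mul_left]
      ring
    rw [this]
    exact Ex_mono okh fun F _ => by
      have := neg_abs_le (g F)
      linarith
  · exact Ex_mono okh fun F _ => le_abs_self _

theorem cov {D : Dm} (hD : D.Ok) {e f : Edg} (he : e ∈ D.edges) (hw : e ∉ D.wir) (hef : f ≠ e)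
    (k : ℕ) : |E D.edges (fun F => xi D k e F * xi D k f F)| ≤
      2 * P D.edges (fun F => Tw D F e f) := by
  have h1 : E D.edges (fun F => xi D k e F * xi D k f F) =
      1 / 2 * E D.edges (fun F => xi D k e F * (xi D k f F - xi D k f (flip e F))) := by
    have h2 := E_flip he (fun F => xi D k e F * xi D k f F)
    have h3 : E D.edges (fun F => xi D k e (flip e F) * xi D k f (flip e F)) =
        - E D.edges (fun F => xi D k e F * xi D k f (flip e F)) := by
      have h4 : E D.edges (fun F => xi D k e (flip e F) * xi D k f (flip e F)) =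
          E D.edges (fun F => -1 * (xi D k e F * xi D k f (flip e F))) := by
        apply Ex_congr
        intro F hF
        rw [xi_flip hD hF he hw]
        ring
      rw [h4]
      unfold E
      rw [Ex_mul_left]
      ring
    have h5 : E D.edges (fun F => xi D k e F * (xi D k f F - xi D k f (flip e F))) =
        E D.edges (fun F => xi D k e F * xi D k f F) -
        E D.edges (fun F => xi D k e F * xi D k f (flip e F)) := by
      unfold E
      rw [← Ex_sub]
      apply Ex_congr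
      intro F _
      ring
    rw [h5]
    have h6 : E D.edges (fun F => xi D k e (flip e F) * xi D k f (flip e F)) =
      E D.edges (fun F => xi D k e F * xi D k f F) := h2
    linarith
  rw [h1, abs_mul, abs_of_nonneg (by norm_num : (0:ℝ) ≤ 1/2)]
  have h2 := E_abs D.edges (fun F => xi D k e F * (xi D k f F - xi D k f (flip e F)))
  have h3 : E D.edges (fun F => |xi D k e F * (xi D k f F - xi D k f (flip e F))|) ≤
      E D.edges (fun F => 2 * (ind (Tw D F e f) + ind (Tw D (flip e F) e f))) :=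
    Ex_mono okh fun F hF => prod_bound hD hF he hw hef k
  have h4 : E D.edges (fun F => 2 * (ind (Tw D F e f) + ind (Tw D (flip e F) e f))) =
      2 * (P D.edges (fun F => Tw D F e f) + P D.edges (fun F => Tw D (flip e F) e f)) := by
    unfold E P Pr
    rw [Ex_mul_left, Ex_add]
  have h5 := P_flip he (fun F => Tw D F e f)
  rw [h4, h5] at h3
  linarith

/-- `e` is examined twice, with an excursion of size `r` in between -/
def Exc (D : Dm) (F : Finset Edg) (e : Edg) (r : ℕ) : Prop :=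
  ∃ i j l, i < j ∧ j < l ∧ At D F e i ∧ At D F e l ∧ (r : ℤ) ≤ sd (src e) (D.walk F j).1

theorem at_near {D : Dm} {F : Finset Edg} {e : Edg} {i : ℕ} (h : At D F e i) :
    sd (src e) (D.walk F i).1 ≤ 1 := by
  have h1 := h.2
  generalize D.walk F i = σ at h1 ⊢
  subst h1
  obtain ⟨⟨x, y⟩, q⟩ := σ
  cases q <;> simp [sd]

theorem bd_pos {D : Dm} {v : Vtx} {k : ℤ} (h : k < D.bd v) : D.l < v.1 - k ∧ v.1 + k < D.r ∧
    0 < v.2 - k ∧ v.2 + k < D.h := by
  unfold Dm.bd at h
  rw [lt_min_iff, lt_min_iff, lt_min_iff] at h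
  omega

theorem exc_arms {D : Dm} (hD : D.Ok) {F : Finset Edg} (hF : F ⊆ D.edges) {e : Edg} {r : ℕ}
    (hr : 8 ≤ r) (hb : (r : ℤ) ≤ D.bd (src e)) (h : Exc D F e r) :
    A4a (src e) 3 (r - 3) ↑F ∨ A4d (src e) 3 (r - 3) ↑F := by
  obtain ⟨i, j, l, hij, hjl, hi, hl, hj⟩ := h
  have hk : ((r - 1 : ℕ) : ℤ) = (r:ℤ) - 1 := by omega
  have hb' : ((r - 1 : ℕ) : ℤ) < D.bd (src e) := by omega
  obtain ⟨b1, b2, b3, b4⟩ := bd_pos hb'
  have hin : ∀ {s : ℕ}, At D F e s → inR ((src e).1 - (1:ℕ)) ((src e).1 + (1:ℕ))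
      ((src e).2 - (1:ℕ)) ((src e).2 + (1:ℕ)) (D.walk F s).1 := by
    intro s hs
    have h1 := at_near hs
    unfold sd at h1
    rw [max_le_iff, abs_le, abs_le] at h1
    unfold inR
    push_cast
    omega
  have h2 := st_U D F hD hF (src e) 1 (r - 1) (by omega) b1 b2 b3 b4 i j l hij hjl hl.1.le
    (hin hi) (hin hl) (by
      intro h3
      unfold inR at h3
      unfold sd at hj
      rw [le_max_iff, le_abs, le_abs] at hj
      omega)
  exact h2

theorem exc_prob (hA : St_Aa) (hd : St_Ad) : ∃ C : ℝ, 1 ≤ C ∧ ∀ (D : Dm), D.Ok → ∀ (e : Edg) (r : ℕ),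
    1 ≤ r → (r : ℤ) ≤ D.bd (src e) →
      P D.edges (fun F => Exc D F e r) ≤ C * (r : ℝ) ^ (-(5/4) : ℝ) := by
  obtain ⟨Ca, hCa, hA'⟩ := hA
  obtain ⟨Cd, hCd, hD'⟩ := hd
  refine ⟨8 ^ (5/4 : ℝ) * (Ca + Cd + 1), ?_, ?_⟩
  · have : (1:ℝ) ≤ 8 ^ (5/4 : ℝ) := Real.one_le_rpow (by norm_num) (by norm_num)
    nlinarith
  intro D hD e r hr hb
  have hr0 : (0:ℝ) < r := by exact_mod_cast hr
  have key : 8 ^ (5/4 : ℝ) * (Ca + Cd + 1) * (r : ℝ) ^ (-(5/4) : ℝ) =
      (Ca + Cd + 1) * (8 / (r:ℝ)) ^ (5/4 : ℝ) := by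
    rw [Real.div_rpow (by norm_num) hr0.le, Real.rpow_neg hr0.le]
    ring
  rw [key]
  by_cases h8 : 8 ≤ r
  · have hsub : ∀ k : ℕ, (k:ℤ) < r → blk (src e) k ⊆ D.edges := by
      intro k hk
      have hb' : (k : ℤ) < D.bd (src e) := by omega
      obtain ⟨b1, b2, b3, b4⟩ := bd_pos hb'
      exact RE_subset b1.le b2.le b3.le b4.le
    have h1 := hA' (src e) 3 (r - 3) (by norm_num) (by omega) D.edges (hsub _ (by omega))
    have h2 := hD' (src e) 3 (r - 3) (by norm_num) (by omega) D.edges (hsub _ (by omega))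
    have h3 : P D.edges (fun F => Exc D F e r) ≤
        PQ (1/2) D.edges (fun F => A4a (src e) 3 (r - 3) ↑F ∨ A4d (src e) 3 (r - 3) ↑F) :=
      Pr_mono okh fun F hF h => exc_arms hD hF h8 hb h
    have h4 := Pr_or_le okh D.edges (fun F => A4a (src e) 3 (r - 3) ↑F)
      (fun F => A4d (src e) 3 (r - 3) ↑F)
    have h5 : (((3:ℕ):ℝ) / ((r - 3 : ℕ) : ℝ)) ^ (5/4 : ℝ) ≤ (8 / (r:ℝ)) ^ (5/4 : ℝ) := by
      refine Real.rpow_le_rpow (by positivity) ?_ (by norm_num)
      rw [Nat.cast_sub (by omega)]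
      have h8' : (8:ℝ) ≤ r := by exact_mod_cast h8
      push_cast
      rw [div_le_div_iff₀ (by linarith) hr0]
      linarith
    have h6 : 0 ≤ (8 / (r:ℝ)) ^ (5/4 : ℝ) := by positivity
    have h7 := mul_le_mul_of_nonneg_left h5 hCa.le
    have h9 := mul_le_mul_of_nonneg_left h5 hCd.le
    have h10 := h3.trans (h4.trans (add_le_add (h1.trans h7) (h2.trans h9)))
    refine h10.trans ?_
    nlinarith
  · push Not at h8
    have h1 : P D.edges (fun F => Exc D F e r) ≤ 1 := Pr_le_one okh _ _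
    refine h1.trans ?_
    have h8' : (r:ℝ) ≤ 8 := by exact_mod_cast h8.le
    have h2 : 1 ≤ 8 / (r:ℝ) := by
      rw [le_div_iff₀ hr0]
      linarith
    have h3 : 1 ≤ (8 / (r:ℝ)) ^ (5/4 : ℝ) := Real.one_le_rpow h2 (by norm_num)
    nlinarith

/-- two edges -/
theorem tw_prob (hA : St_Aa) (hd : St_Ad) : ∃ C : ℝ, 1 ≤ C ∧ ∀ (D : Dm), D.Ok → ∀ (e f : Edg) (ρ : ℕ),
    1 ≤ ρ → (ρ : ℤ) ≤ D.bd (src e) → P D.edges (fun F => Tw D F e f) ≤
      C * ((if src e = src f then 1 else ((sd (src e) (src f) : ℤ) : ℝ) ^ (-(5/4) : ℝ)) +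
        (ρ : ℝ) ^ (-(5/4) : ℝ)) := by
  obtain ⟨C, hC, h⟩ := exc_prob hA hd
  refine ⟨2 ^ (5/4 : ℝ) * C, ?_, ?_⟩
  · have : (1:ℝ) ≤ 2 ^ (5/4 : ℝ) := Real.one_le_rpow (by norm_num) (by norm_num)
    nlinarith
  intro D hD e f ρ hρ hb
  have hρ0 : (0:ℝ) < ρ := by exact_mod_cast hρ
  have hpow : (1:ℝ) ≤ 2 ^ (5/4 : ℝ) := Real.one_le_rpow (by norm_num) (by norm_num)
  have hp1 : P D.edges (fun F => Tw D F e f) ≤ 1 := Pr_le_one okh _ _
  have hρn : 0 ≤ (ρ : ℝ) ^ (-(5/4) : ℝ) := by positivity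
  have hK : 1 ≤ 2 ^ (5/4 : ℝ) * C := by nlinarith
  have hfin : 1 ≤ 2 ^ (5/4 : ℝ) * C * (1 + (ρ : ℝ) ^ (-(5/4) : ℝ)) := by
    have h1 : 0 ≤ 2 ^ (5/4 : ℝ) * C * (ρ : ℝ) ^ (-(5/4) : ℝ) := by positivity
    rw [mul_add, mul_one]
    linarith
  split_ifs with hs
  · linarith
  · have hsd : 1 ≤ sd (src e) (src f) := by
      by_contra hlt
      apply hs
      have h1 := le_max_left |(src e).1 - (src f).1| |(src e).2 - (src f).2|
      have h2 := le_max_right |(src e).1 - (src f).1| |(src e).2 - (src f).2|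
      unfold sd at hlt
      have h3 : |(src e).1 - (src f).1| ≤ 0 := by omega
      have h4 : |(src e).2 - (src f).2| ≤ 0 := by omega
      rw [abs_nonpos_iff] at h3 h4
      ext
      · omega
      · omega
    obtain ⟨m, hm⟩ : ∃ m : ℕ, (m:ℤ) = sd (src e) (src f) := ⟨(sd (src e) (src f)).toNat, by omega⟩
    have hm1 : 1 ≤ m := by omega
    have hm0 : (0:ℝ) < m := by exact_mod_cast hm1
    rw [← hm, Int.cast_natCast]
    have hmn : 0 ≤ (m : ℝ) ^ (-(5/4) : ℝ) := by positivity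
    by_cases h2 : 2 ≤ m
    · set r := min (m - 1) ρ with hr
      have hr1 : 1 ≤ r := by omega
      have h3 : P D.edges (fun F => Tw D F e f) ≤ P D.edges (fun F => Exc D F e r) := by
        refine Pr_mono okh fun F hF hT => ?_
        obtain ⟨i, j, l, a1, a2, a3, a4, a5⟩ := hT
        refine ⟨i, j, l, a1, a2, a3, a5, ?_⟩
        have h4 := at_near a4
        have h5 := Walk_sd_tri (src e) (D.walk F j).1 (src f)
        have h6 : sd (D.walk F j).1 (src f) = sd (src f) (D.walk F j).1 := by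
          unfold sd
          rw [abs_sub_comm, abs_sub_comm (D.walk F j).1.2]
        omega
      have h4 := h D hD e r hr1 (by omega)
      have h5 : (r : ℝ) ^ (-(5/4) : ℝ) ≤ 2 ^ (5/4 : ℝ) * ((m : ℝ) ^ (-(5/4) : ℝ) + (ρ : ℝ) ^ (-(5/4) : ℝ)) := by
        rcases min_choice (m - 1) ρ with h6 | h6
        · rw [hr, h6]
          have h7 : ((m - 1 : ℕ) : ℝ) ^ (-(5/4) : ℝ) ≤ ((m:ℝ) / 2) ^ (-(5/4) : ℝ) := by
            refine Real.rpow_le_rpow_of_nonpos (by positivity) ?_ (by norm_num)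
            rw [Nat.cast_sub (by omega)]
            have : (2:ℝ) ≤ m := by exact_mod_cast h2
            push_cast
            linarith
          have h8 : ((m:ℝ) / 2) ^ (-(5/4) : ℝ) = 2 ^ (5/4 : ℝ) * (m : ℝ) ^ (-(5/4) : ℝ) := by
            rw [Real.div_rpow hm0.le (by norm_num), Real.rpow_neg (by norm_num : (0:ℝ) ≤ 2)]
            field_simp
          rw [h8] at h7
          nlinarith
        · rw [hr, h6]
          nlinarith
      calc P D.edges (fun F => Tw D F e f) ≤ _ := h3.trans h4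
        _ ≤ C * (2 ^ (5/4 : ℝ) * ((m : ℝ) ^ (-(5/4) : ℝ) + (ρ : ℝ) ^ (-(5/4) : ℝ))) :=
          mul_le_mul_of_nonneg_left h5 (by linarith)
        _ = _ := by ring
    · have h3 : m = 1 := by omega
      subst h3
      rw [Nat.cast_one, Real.one_rpow]
      linarith

end Pool.Agent.Zk36.TT
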