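import Pool.Agent.Zk36.TT.Open
import Pool.Agent.H984R4.NP.ModelLem

/-!
# Exploration path: all times
-/

set_option autoImplicit false

namespace Pool.Agent.Zk36.TT

open H974 Finset H342P H984P H984N H984P.SideAux Pool.Agent.W92.DP H12S H389NS

theorem E_lin (S : Finset Edg) (f g h : Finset Edg → ℝ) (a b c d : ℝ) :
    E S (fun F => a * f F + b * g F + c * h F + d) = a * E S f + b * E S g + c * E S h + d := by
  unfold E
  rw [Ex_add, Ex_add, Ex_add, Ex_mul_left, Ex_mul_left, Ex_mul_left, Ex_const]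

theorem P_mk {S : Finset Edg} {A : Finset Edg → Prop} {g : Finset Edg → ℝ} {x : ℝ} (hx : 0 < x)
    (hg : ∀ F ⊆ S, 0 ≤ g F) (h : ∀ F ⊆ S, A F → x ≤ g F) : P S A ≤ E S g / x := by
  have h1 : P S A ≤ E S (fun F => 1 / x * g F) := by
    refine Ex_mono okh fun F hF => ?_
    by_cases hA : A F
    · rw [ind_of hA]
      have := h F hF hA
      rw [one_div, ← div_eq_inv_mul, le_div_iff₀ hx]
      linarith
    · rw [ind_not_of hA]
      exact mul_nonneg (by positivity) (hg F hF)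
  have h2 : E S (fun F => 1 / x * g F) = E S g / x := by
    unfold E
    rw [Ex_mul_left]
    ring
  rwa [h2] at h1

theorem P_ex {S : Finset Edg} {ι : Type*} (T : Finset ι) (A : ι → Finset Edg → Prop) :
    P S (fun F => ∃ i ∈ T, A i F) ≤ ∑ i ∈ T, P S (A i) := by
  have h1 : P S (fun F => ∃ i ∈ T, A i F) ≤ E S (fun F => ∑ i ∈ T, ind (A i F)) := by
    refine Ex_mono okh fun F _ => ?_
    by_cases h : ∃ i ∈ T, A i F
    · obtain ⟨i, hi, hA⟩ := h
      rw [ind_of ⟨i, hi, hA⟩, ← ind_of hA]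
      exact Finset.single_le_sum (f := fun i => ind (A i F)) (fun _ _ => ind_nonneg _) hi
    · rw [ind_not_of h]
      exact Finset.sum_nonneg fun _ _ => ind_nonneg _
  rwa [E_sum] at h1

/-! ## fixed time -/

/-- new edges against steps, from the time `k` -/
noncomputable def zz (D : Dm) (k : ℕ) (F : Finset Edg) : ℝ :=
  |3 * (((disc D F (D.len F)).card : ℝ) - (disc D F k).card) - 2 * ((D.len F : ℝ) - k)|

/-- new edges against steps, before the time `k` -/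
noncomputable def g1 (D : Dm) (k : ℕ) (F : Finset Edg) : ℝ :=
  |3 * ((disc D F k).card : ℝ) - 2 * k|

/-- open edges against all edges -/
noncomputable def g2 (D : Dm) (k : ℕ) (F : Finset Edg) : ℝ :=
  |2 * ((discO D F k).card : ℝ) - (disc D F k).card|

theorem rr_nonneg (D : Dm) (ρ k : ℕ) (F : Finset Edg) : 0 ≤ rr D ρ k F :=
  Finset.sum_nonneg fun _ _ => ind_nonneg _

theorem Bn_nonneg (D : Dm) (ρ : ℕ) (F : Finset Edg) : 0 ≤ Bn D ρ F :=
  Finset.sum_nonneg fun _ _ => ind_nonneg _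

theorem am (w s : ℝ) (hs : 0 < s) : |w| ≤ 1 / (2 * s) * w ^ 2 + s / 2 := by
  have h1 : 0 ≤ (|w| - s) ^ 2 := sq_nonneg _
  have h2 : |w| ^ 2 = w ^ 2 := sq_abs w
  have h3 : 1 / (2 * s) * w ^ 2 + s / 2 - |w| = (|w| - s) ^ 2 / (2 * s) := by
    rw [← h2]
    field_simp
    ring
  have h4 : 0 ≤ (|w| - s) ^ 2 / (2 * s) := by positivity
  linarith

/-- the radius -/
theorem radius {n : ℝ} (hn : 2 ≤ n) : ∃ ρ : ℕ, 2 ≤ ρ ∧
    (ρ : ℝ) ^ (-(5/4) : ℝ) ≤ n ^ (-(5/6) : ℝ) ∧ (ρ : ℝ) ^ (2:ℝ) ≤ 4 * n ^ (4/3 : ℝ) ∧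
    (ρ : ℝ) ^ (1/2 : ℝ) ≤ 2 * n ^ (1/3 : ℝ) := by
  have hn0 : 0 < n := by linarith
  set x := n ^ (2/3 : ℝ) with hx
  have hx1 : 1 < x := Real.one_lt_rpow (by linarith) (by norm_num)
  refine ⟨⌈x⌉₊, ?_, ?_, ?_, ?_⟩
  · have : 1 < ⌈x⌉₊ := Nat.lt_ceil.2 (by exact_mod_cast hx1)
    omega
  · have h1 : x ≤ (⌈x⌉₊ : ℝ) := Nat.le_ceil _
    have h2 := Real.rpow_le_rpow_of_nonpos (by linarith) h1 (by norm_num : (-(5/4) : ℝ) ≤ 0)
    refine h2.trans (le_of_eq ?_)
    rw [hx, ← Real.rpow_mul hn0.le]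
    norm_num
  · have h1 : (⌈x⌉₊ : ℝ) ≤ 2 * x := by
      have := (Nat.ceil_lt_add_one (by linarith : 0 ≤ x)).le
      linarith
    have h2 := Real.rpow_le_rpow (by positivity) h1 (by norm_num : (0:ℝ) ≤ 2)
    refine h2.trans (le_of_eq ?_)
    rw [Real.mul_rpow (by norm_num) (by linarith), hx, ← Real.rpow_mul hn0.le, Real.rpow_two]
    norm_num
  · have h1 : (⌈x⌉₊ : ℝ) ≤ 2 * x := by
      have := (Nat.ceil_lt_add_one (by linarith : 0 ≤ x)).le
      linarith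
    have h2 := Real.rpow_le_rpow (by positivity) h1 (by norm_num : (0:ℝ) ≤ 1/2)
    refine h2.trans ?_
    rw [Real.mul_rpow (by norm_num) (by linarith), hx, ← Real.rpow_mul hn0.le]
    have h3 : (2:ℝ) ^ (1/2 : ℝ) ≤ 2 := by
      calc (2:ℝ) ^ (1/2 : ℝ) ≤ 2 ^ (1:ℝ) :=
            Real.rpow_le_rpow_of_exponent_le (by norm_num) (by norm_num)
        _ = 2 := Real.rpow_one 2
    have h4 : (2/3 * (1/2) : ℝ) = 1/3 := by norm_num
    rw [h4]
    exact mul_le_mul_of_nonneg_right h3 (by positivity)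

theorem zz_bound (hA : St_Aa) (hd : St_Ad) {Cu : ℝ} (hCu : 0 < Cu) (hU : TwoUp Cu (1/4)) :
    ∃ C : ℝ, 0 < C ∧ ∀ (D : Dm) (n : ℝ) (k : ℕ), Sz D n → 2 ≤ n →
      E D.edges (fun F => ind (k ≤ D.len F) * zz D k F) ≤ C * n ^ (19/12 : ℝ) := by
  obtain ⟨C1, hC1, h1⟩ := W_moment hA hd
  obtain ⟨C2, hC2, h2⟩ := rr_moment hA hd
  obtain ⟨C3, hC3, h3⟩ := Bn_moment hCu hU
  refine ⟨C1 + 1 + 2 * (C2 * 5) + 2 * (C3 * 2), by positivity, ?_⟩
  intro D n k hs hn
  have hn0 : 0 < n := by linarith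
  have hn1 : 1 ≤ n := by linarith
  obtain ⟨ρ, r2, r3, r4, r5⟩ := radius hn
  have k1 := h1 D n ρ k hs (by omega)
  have k2 := h2 D n ρ k hs r2
  have k3 := h3 D n ρ hs (by omega)
  set s := n ^ (19/12 : ℝ) with hsd
  have hs0 : 0 < s := by positivity
  have p1 : n ^ (11/4 : ℝ) ≤ s * s := by
    rw [hsd, ← Real.rpow_add hn0]
    exact Real.rpow_le_rpow_of_exponent_le hn1 (by norm_num)
  have p2 : n ^ (4:ℝ) * (ρ : ℝ) ^ (-(5/4) : ℝ) ≤ s * s := by
    refine (mul_le_mul_of_nonneg_left r3 (by positivity)).trans (le_of_eq ?_)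
    rw [hsd, ← Real.rpow_add hn0, ← Real.rpow_add hn0]
    norm_num
  have p3 : (ρ:ℝ) ^ (2:ℝ) ≤ 4 * s := by
    refine r4.trans (mul_le_mul_of_nonneg_left ?_ (by norm_num))
    exact Real.rpow_le_rpow_of_exponent_le hn1 (by norm_num)
  have p4 : n ^ (2:ℝ) * (ρ : ℝ) ^ (-(5/4) : ℝ) ≤ s := by
    refine (mul_le_mul_of_nonneg_left r3 (by positivity)).trans ?_
    rw [hsd, ← Real.rpow_add hn0]
    exact Real.rpow_le_rpow_of_exponent_le hn1 (by norm_num)
  have p5 : (ρ:ℝ) ^ (1/2 : ℝ) * n ^ (5/4 : ℝ) ≤ 2 * s := by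
    refine (mul_le_mul_of_nonneg_right r5 (by positivity)).trans (le_of_eq ?_)
    rw [hsd, mul_assoc, ← Real.rpow_add hn0]
    norm_num
  have q1 : E D.edges (fun F => ind (k ≤ D.len F) * zz D k F) ≤
      E D.edges (fun F => 1 / (2 * s) * W D ρ k F ^ 2 + 2 * rr D ρ k F + 2 * Bn D ρ F + s / 2) := by
    refine Ex_mono okh fun F hF => ?_
    have w1 := am (W D ρ k F) s hs0
    have w2 := rr_nonneg D ρ k F
    have w3 := Bn_nonneg D ρ F
    by_cases hk : k ≤ D.len F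
    · rw [ind_of hk, one_mul]
      have := count hs.ok hF ρ hk
      unfold zz
      linarith
    · rw [ind_not_of hk, zero_mul]
      positivity
  rw [E_lin D.edges (fun F => W D ρ k F ^ 2) (fun F => rr D ρ k F) (fun F => Bn D ρ F)] at q1
  have q2 : 1 / (2 * s) * E D.edges (fun F => W D ρ k F ^ 2) ≤ C1 * s := by
    have : E D.edges (fun F => W D ρ k F ^ 2) ≤ C1 * (s * s + s * s) :=
      k1.trans (mul_le_mul_of_nonneg_left (add_le_add p1 p2) hC1.le)
    refine (mul_le_mul_of_nonneg_left this (by positivity)).trans (le_of_eq ?_)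
    field_simp
    ring
  have q3 : E D.edges (fun F => rr D ρ k F) ≤ C2 * 5 * s := by
    have : E D.edges (rr D ρ k) ≤ C2 * (4 * s + s) :=
      k2.trans (mul_le_mul_of_nonneg_left (add_le_add p3 p4) hC2.le)
    refine this.trans (le_of_eq ?_)
    ring
  have q4 : E D.edges (fun F => Bn D ρ F) ≤ C3 * 2 * s := by
    have : E D.edges (Bn D ρ) ≤ C3 * (2 * s) :=
      k3.trans (mul_le_mul_of_nonneg_left p5 hC3.le)
    refine this.trans (le_of_eq ?_)
    ring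
  linarith

theorem g1_bound (hA : St_Aa) (hd : St_Ad) {Cu : ℝ} (hCu : 0 < Cu) (hU : TwoUp Cu (1/4)) :
    ∃ C : ℝ, 0 < C ∧ ∀ (D : Dm) (n : ℝ) (k : ℕ), Sz D n → 2 ≤ n →
      E D.edges (fun F => ind (k ≤ D.len F) * g1 D k F) ≤ C * n ^ (19/12 : ℝ) := by
  obtain ⟨C, hC, h⟩ := zz_bound hA hd hCu hU
  refine ⟨2 * C, by positivity, ?_⟩
  intro D n k hs hn
  have a1 := h D n 0 hs hn
  have a2 := h D n k hs hn
  have a3 : E D.edges (fun F => ind (k ≤ D.len F) * g1 D k F) ≤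
      E D.edges (fun F => 1 * (ind (0 ≤ D.len F) * zz D 0 F) +
        1 * (ind (k ≤ D.len F) * zz D k F) + 0 * 0 + 0) := by
    refine Ex_mono okh fun F hF => ?_
    rw [ind_of (Nat.zero_le _), one_mul, one_mul, one_mul, zero_mul, add_zero, add_zero]
    have z0 : 0 ≤ zz D 0 F := abs_nonneg _
    have zk : 0 ≤ zz D k F := abs_nonneg _
    by_cases hk : k ≤ D.len F
    · rw [ind_of hk, one_mul, one_mul]
      unfold g1 zz
      rw [card_disc_zero]
      have e1 : 3 * ((disc D F k).card : ℝ) - 2 * k =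
          (3 * (((disc D F (D.len F)).card : ℝ) - (0:ℕ)) - 2 * ((D.len F : ℝ) - (0:ℕ))) -
          (3 * (((disc D F (D.len F)).card : ℝ) - (disc D F k).card) -
            2 * ((D.len F : ℝ) - k)) := by
        push_cast
        ring
      rw [e1]
      exact abs_sub _ _
    · rw [ind_not_of hk, zero_mul, zero_mul]
      linarith
  rw [E_lin D.edges (fun F => ind (0 ≤ D.len F) * zz D 0 F)
    (fun F => ind (k ≤ D.len F) * zz D k F) (fun _ => 0)] at a3
  linarith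

theorem g2_bound {Cu : ℝ} (hCu : 0 < Cu) (hU : TwoUp Cu (1/4)) :
    ∃ C : ℝ, 0 < C ∧ ∀ (D : Dm) (n : ℝ) (k : ℕ), Sz D n → 2 ≤ n →
      E D.edges (fun F => ind (k ≤ D.len F) * g2 D k F) ≤ C * n ^ (19/12 : ℝ) := by
  obtain ⟨C3, hC3, h3⟩ := Bn_moment hCu hU
  refine ⟨4 + 1 + C3 * 2, by positivity, ?_⟩
  intro D n k hs hn
  have hn0 : 0 < n := by linarith
  have hn1 : 1 ≤ n := by linarith
  obtain ⟨ρ, r2, r3, r4, r5⟩ := radius hn
  have k1 := Xk_moment hs k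
  have k3 := h3 D n ρ hs (by omega)
  set s := n ^ (19/12 : ℝ) with hsd
  have hs0 : 0 < s := by positivity
  have p1 : n ^ 2 ≤ s * s := by
    rw [hsd, ← Real.rpow_add hn0, ← Real.rpow_natCast]
    exact Real.rpow_le_rpow_of_exponent_le hn1 (by norm_num)
  have p5 : (ρ:ℝ) ^ (1/2 : ℝ) * n ^ (5/4 : ℝ) ≤ 2 * s := by
    refine (mul_le_mul_of_nonneg_right r5 (by positivity)).trans (le_of_eq ?_)
    rw [hsd, mul_assoc, ← Real.rpow_add hn0]
    norm_num
  have q1 : E D.edges (fun F => ind (k ≤ D.len F) * g2 D k F) ≤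
      E D.edges (fun F => 1 / (2 * s) * Xk D k F ^ 2 + 1 * Bn D ρ F + 0 * 0 + s / 2) := by
    refine Ex_mono okh fun F hF => ?_
    have w1 := am (Xk D k F) s hs0
    have w3 := Bn_nonneg D ρ F
    by_cases hk : k ≤ D.len F
    · rw [ind_of hk, one_mul]
      have := count_open (F := F) (ρ := ρ) (by omega) hk
      unfold g2
      linarith
    · rw [ind_not_of hk, zero_mul]
      positivity
  rw [E_lin D.edges (fun F => Xk D k F ^ 2) (fun F => Bn D ρ F) (fun _ => 0)] at q1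
  have q2 : 1 / (2 * s) * E D.edges (fun F => Xk D k F ^ 2) ≤ 4 * s := by
    have : E D.edges (fun F => Xk D k F ^ 2) ≤ 8 * (s * s) :=
      k1.trans (mul_le_mul_of_nonneg_left p1 (by norm_num))
    refine (mul_le_mul_of_nonneg_left this (by positivity)).trans (le_of_eq ?_)
    field_simp
    ring
  have q4 : E D.edges (fun F => Bn D ρ F) ≤ C3 * 2 * s := by
    have : E D.edges (Bn D ρ) ≤ C3 * (2 * s) :=
      k3.trans (mul_le_mul_of_nonneg_left p5 hC3.le)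
    refine this.trans (le_of_eq ?_)
    ring
  linarith

theorem g1_lip {D : Dm} {F : Finset Edg} {l k : ℕ} (h : l ≤ k) :
    g1 D k F ≤ g1 D l F + 3 * ((k : ℝ) - l) := by
  have h1 := card_disc_le (D := D) (F := F) h
  have h2 := Finset.card_le_card (disc_mono (D := D) (F := F) h)
  have h1' : ((disc D F k).card : ℝ) ≤ (disc D F l).card + ((k:ℝ) - l) := by
    rw [← Nat.cast_sub h]
    exact_mod_cast h1
  have h2' : ((disc D F l).card : ℝ) ≤ (disc D F k).card := by exact_mod_cast h2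
  have h3 : (l:ℝ) ≤ k := by exact_mod_cast h
  unfold g1
  have h4 : |3 * ((disc D F k).card : ℝ) - 2 * k| ≤ |3 * ((disc D F l).card : ℝ) - 2 * l| +
      |(3 * ((disc D F k).card : ℝ) - 2 * k) - (3 * ((disc D F l).card : ℝ) - 2 * l)| := by
    have := abs_add_le (3 * ((disc D F l).card : ℝ) - 2 * l)
      ((3 * ((disc D F k).card : ℝ) - 2 * k) - (3 * ((disc D F l).card : ℝ) - 2 * l))
    rwa [add_sub_cancel] at this
  have h5 : |(3 * ((disc D F k).card : ℝ) - 2 * k) - (3 * ((disc D F l).card : ℝ) - 2 * l)| ≤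
      3 * ((k : ℝ) - l) := by
    rw [abs_le]
    constructor <;> linarith
  linarith

theorem g2_lip {D : Dm} {F : Finset Edg} {l k : ℕ} (h : l ≤ k) :
    g2 D k F ≤ g2 D l F + 3 * ((k : ℝ) - l) := by
  have h1 := card_disc_le (D := D) (F := F) h
  have h2 := Finset.card_le_card (disc_mono (D := D) (F := F) h)
  have h1' : ((disc D F k).card : ℝ) ≤ (disc D F l).card + ((k:ℝ) - l) := by
    rw [← Nat.cast_sub h]
    exact_mod_cast h1
  have h2' : ((disc D F l).card : ℝ) ≤ (disc D F k).card := by exact_mod_cast h2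
  have h6 : ((discO D F k).card : ℝ) + (disc D F l).card ≤ (discO D F l).card + (disc D F k).card := by
    exact_mod_cast card_discO_le h
  have h7 : ((discO D F l).card : ℝ) ≤ (discO D F k).card := by
    exact_mod_cast Finset.card_le_card (discO_mono (D := D) (F := F) h)
  have h3 : (l:ℝ) ≤ k := by exact_mod_cast h
  unfold g2
  have h4 : |2 * ((discO D F k).card : ℝ) - (disc D F k).card| ≤
      |2 * ((discO D F l).card : ℝ) - (disc D F l).card| +
      |(2 * ((discO D F k).card : ℝ) - (disc D F k).card) -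
        (2 * ((discO D F l).card : ℝ) - (disc D F l).card)| := by
    have := abs_add_le (2 * ((discO D F l).card : ℝ) - (disc D F l).card)
      ((2 * ((discO D F k).card : ℝ) - (disc D F k).card) -
        (2 * ((discO D F l).card : ℝ) - (disc D F l).card))
    rwa [add_sub_cancel] at this
  have h5 : |(2 * ((discO D F k).card : ℝ) - (disc D F k).card) -
        (2 * ((discO D F l).card : ℝ) - (disc D F l).card)| ≤
      3 * ((k : ℝ) - l) := by
    rw [abs_le]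
    constructor <;> linarith
  linarith

/-! ## all times -/

theorem grid {Cl : ℝ} (hCl : 0 < Cl) (hL : ∀ (D : Dm) (n : ℝ), D.Ok → 1 ≤ n →
      ((D.r - D.l : ℤ) : ℝ) ≤ n → (D.h : ℝ) ≤ n →
      E D.edges (fun F => (D.len F : ℝ) + 1) ≤ Cl * n ^ (7/4 : ℝ))
    {C : ℝ} (hC : 0 < C) (g : Dm → ℕ → Finset Edg → ℝ) (hg0 : ∀ D k F, 0 ≤ g D k F)
    (hlip : ∀ (D : Dm) (F : Finset Edg) (l k : ℕ), l ≤ k → g D k F ≤ g D l F + 3 * ((k:ℝ) - l))
    (hE : ∀ (D : Dm) (n : ℝ) (k : ℕ), Sz D n → 2 ≤ n →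
      E D.edges (fun F => ind (k ≤ D.len F) * g D k F) ≤ C * n ^ (19/12 : ℝ))
    {D : Dm} {n : ℝ} (hs : Sz D n) (hn : 12 ≤ n) :
    P D.edges (fun F => ∃ k ≤ D.len F, n ^ (41/24 : ℝ) < g D k F) ≤
      (12 * Cl + 6 * C) * n ^ (-(1/24) : ℝ) := by
  have hn0 : 0 < n := by linarith
  have hn1 : 1 ≤ n := by linarith
  set x := n ^ (41/24 : ℝ) with hx
  have hx12 : 12 ≤ x := by
    refine hn.trans ?_
    calc n = n ^ (1:ℝ) := (Real.rpow_one n).symm
      _ ≤ x := Real.rpow_le_rpow_of_exponent_le hn1 (by norm_num)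
  have hx0 : 0 < x := by linarith
  obtain ⟨K, hK1, hK2, hK0⟩ : ∃ K : ℕ, (K:ℝ) ≤ x / 6 ∧ x / 12 ≤ K ∧ 1 ≤ K := by
    refine ⟨⌊x / 6⌋₊, Nat.floor_le (by positivity), ?_, ?_⟩
    · have := Nat.lt_floor_add_one (x / 6)
      linarith
    · rw [Nat.one_le_floor_iff]
      linarith
  set y := n ^ (1/12 : ℝ) with hy
  have hy1 : 1 ≤ y := Real.one_le_rpow hn1 (by norm_num)
  obtain ⟨M, hM1, hM2⟩ : ∃ M : ℕ, y ≤ M ∧ (M:ℝ) ≤ 2 * y := by
    refine ⟨⌈y⌉₊, Nat.le_ceil _, ?_⟩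
    have := (Nat.ceil_lt_add_one (by linarith : 0 ≤ y)).le
    linarith
  have hM0 : (0:ℝ) < M := by linarith
  have hK0' : (0:ℝ) < K := by exact_mod_cast hK0
  have key : ∀ F ⊆ D.edges, (∃ k ≤ D.len F, x < g D k F) →
      (((M * K : ℕ) : ℝ) ≤ D.len F + 1) ∨
      (∃ j ∈ Finset.range M, x / 2 ≤ ind (j * K ≤ D.len F) * g D (j * K) F) := by
    rintro F - ⟨k, hk, hkx⟩
    rcases lt_or_ge (D.len F) (M * K) with hM | hM
    · right
      have hj : k / K < M := by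
        rw [Nat.div_lt_iff_lt_mul (by omega)]
        omega
      have hjk : k / K * K ≤ k := Nat.div_mul_le_self k K
      have hjk2 : k < k / K * K + K := by
        have := Nat.lt_div_mul_add (a := k) (b := K) (by omega)
        exact this
      refine ⟨k / K, Finset.mem_range.2 hj, ?_⟩
      rw [ind_of (hjk.trans hk), one_mul]
      have h1 := hlip D F _ _ hjk
      have h2 : (k:ℝ) - ((k / K * K : ℕ) : ℝ) ≤ K := by
        have : (k:ℝ) ≤ ((k / K * K + K : ℕ) : ℝ) := by exact_mod_cast hjk2.le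
        push_cast at this ⊢
        linarith
      linarith
    · left
      have : ((M * K : ℕ) : ℝ) ≤ D.len F := by exact_mod_cast hM
      linarith
  have s1 : P D.edges (fun F => ∃ k ≤ D.len F, x < g D k F) ≤
      P D.edges (fun F => (((M * K : ℕ) : ℝ) ≤ D.len F + 1) ∨
      (∃ j ∈ Finset.range M, x / 2 ≤ ind (j * K ≤ D.len F) * g D (j * K) F)) :=
    Pr_mono okh key
  have s2 := Pr_or_le okh D.edges (fun F => (((M * K : ℕ) : ℝ) ≤ D.len F + 1))
    (fun F => ∃ j ∈ Finset.range M, x / 2 ≤ ind (j * K ≤ D.len F) * g D (j * K) F)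
  have s3 : P D.edges (fun F => (((M * K : ℕ) : ℝ) ≤ D.len F + 1)) ≤ 12 * Cl * n ^ (-(1/24) : ℝ) := by
    have hMK : (0:ℝ) < ((M * K : ℕ) : ℝ) := by
      push_cast
      positivity
    refine (P_mk (g := fun F => (D.len F : ℝ) + 1) hMK (fun F _ => by positivity)
      (fun F _ h => h)).trans ?_
    rw [div_le_iff₀ hMK]
    refine (hL D n hs.ok hs.one hs.w hs.h).trans ?_
    have h1 : y * (x / 12) ≤ ((M * K : ℕ) : ℝ) := by
      push_cast
      exact mul_le_mul hM1 hK2 (by positivity) hM0.le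
    have h2 : n ^ (-(1/24) : ℝ) * (y * x) = n ^ (7/4 : ℝ) := by
      rw [hx, hy, ← Real.rpow_add hn0, ← Real.rpow_add hn0]
      norm_num
    have h3 : 0 ≤ n ^ (-(1/24) : ℝ) := by positivity
    calc Cl * n ^ (7/4 : ℝ) = 12 * Cl * n ^ (-(1/24) : ℝ) * (y * (x / 12)) := by
          rw [← h2]
          ring
      _ ≤ _ := mul_le_mul_of_nonneg_left h1 (by positivity)
  have s4 : P D.edges (fun F => ∃ j ∈ Finset.range M,
      x / 2 ≤ ind (j * K ≤ D.len F) * g D (j * K) F) ≤ 6 * C * n ^ (-(1/24) : ℝ) := by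
    refine (P_ex _ _).trans ?_
    have h1 : ∀ j ∈ Finset.range M, P D.edges (fun F =>
        x / 2 ≤ ind (j * K ≤ D.len F) * g D (j * K) F) ≤ C * n ^ (19/12 : ℝ) / (x / 2) := by
      intro j _
      refine (P_mk (g := fun F => ind (j * K ≤ D.len F) * g D (j * K) F) (by positivity)
        (fun F _ => mul_nonneg (ind_nonneg _) (hg0 _ _ _)) (fun F _ h => h)).trans ?_
      exact div_le_div_of_nonneg_right (hE D n (j * K) hs (by linarith)) (by positivity)
    refine (Finset.sum_le_card_nsmul _ _ _ h1).trans ?_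
    rw [nsmul_eq_mul, Finset.card_range]
    have h2 : (M:ℝ) * (C * n ^ (19/12 : ℝ) / (x / 2)) ≤ 2 * y * (C * n ^ (19/12 : ℝ) / (x / 2)) :=
      mul_le_mul_of_nonneg_right hM2 (by positivity)
    refine h2.trans ?_
    have h3 : y * n ^ (19/12 : ℝ) = n ^ (-(1/24) : ℝ) * x := by
      rw [hx, hy, ← Real.rpow_add hn0, ← Real.rpow_add hn0]
      norm_num
    have h4 : 2 * y * (C * n ^ (19/12 : ℝ) / (x / 2)) = 4 * C * (y * n ^ (19/12 : ℝ)) / x := by
      field_simp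
      ring
    rw [h4, h3]
    have h5 : 4 * C * (n ^ (-(1/24) : ℝ) * x) / x = 4 * C * n ^ (-(1/24) : ℝ) := by
      field_simp
    rw [h5]
    have h6 : 0 ≤ C * n ^ (-(1/24) : ℝ) := by positivity
    linarith
  calc P D.edges (fun F => ∃ k ≤ D.len F, x < g D k F) ≤ _ := s1
    _ ≤ _ := s2
    _ ≤ 12 * Cl * n ^ (-(1/24) : ℝ) + 6 * C * n ^ (-(1/24) : ℝ) := add_le_add s3 s4
    _ = _ := by ring

/-- the deviations at all times -/
theorem dev (hA : St_Aa) (hd : St_Ad) {Cu : ℝ} (hCu : 0 < Cu) (hU : TwoUp Cu (1/4)) :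
    ∃ C : ℝ, 0 < C ∧ ∀ (D : Dm) (n : ℝ), Sz D n → 12 ≤ n →
      P D.edges (fun F => ∃ k ≤ D.len F, n ^ (41/24 : ℝ) < g1 D k F ∨ n ^ (41/24 : ℝ) < g2 D k F) ≤
        C * n ^ (-(1/24) : ℝ) := by
  obtain ⟨Cl, hCl, hL⟩ := len_moment hCu hU
  obtain ⟨C1, hC1, h1⟩ := g1_bound hA hd hCu hU
  obtain ⟨C2, hC2, h2⟩ := g2_bound hCu hU
  refine ⟨(12 * Cl + 6 * C1) + (12 * Cl + 6 * C2), by positivity, ?_⟩
  intro D n hs hn
  have a1 := grid hCl hL hC1 g1 (fun _ _ _ => abs_nonneg _) (fun _ _ _ _ h => g1_lip h) h1 hs hn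
  have a2 := grid hCl hL hC2 g2 (fun _ _ _ => abs_nonneg _) (fun _ _ _ _ h => g2_lip h) h2 hs hn
  have a3 : P D.edges (fun F => ∃ k ≤ D.len F, n ^ (41/24 : ℝ) < g1 D k F ∨
      n ^ (41/24 : ℝ) < g2 D k F) ≤ P D.edges (fun F => (∃ k ≤ D.len F, n ^ (41/24 : ℝ) < g1 D k F) ∨
      ∃ k ≤ D.len F, n ^ (41/24 : ℝ) < g2 D k F) := by
    refine Pr_mono okh fun F _ h => ?_
    obtain ⟨k, hk, h | h⟩ := h
    · exact Or.inl ⟨k, hk, h⟩
    · exact Or.inr ⟨k, hk, h⟩
  have a4 := Pr_or_le okh D.edges (fun F => ∃ k ≤ D.len F, n ^ (41/24 : ℝ) < g1 D k F)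
    (fun F => ∃ k ≤ D.len F, n ^ (41/24 : ℝ) < g2 D k F)
  rw [add_mul]
  exact a3.trans (a4.trans (add_le_add a1 a2))

end Pool.Agent.Zk36.TT
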