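import Pool.Agent.H984R4.NP.Walk
import Pool.Agent.H984R4.NP.Model
import Pool.Agent.H984R3.Per.SideL

/-!
# Exploration path: the state of one edge is changed

If the examined edge `e` is examined once (twice) in the configuration `F`, it is examined twice
(once) in the configuration where its state is changed.
-/

set_option autoImplicit false

namespace Pool.Agent.Zk36.TT

open H974 Finset H342P H984P H984N H984P.SideAux

variable {D : Dm} {F : Finset Edg} {e : Edg}

/-- the state of `e` is changed -/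
def flip (e : Edg) (F : Finset Edg) : Finset Edg := if e ∈ F then F.erase e else insert e F

theorem mem_flip_ne {e f : Edg} {F : Finset Edg} (h : f ≠ e) : f ∈ flip e F ↔ f ∈ F := by
  unfold flip
  split_ifs
  · rw [Finset.mem_erase]; exact ⟨fun h' => h'.2, fun h' => ⟨h, h'⟩⟩
  · rw [Finset.mem_insert]; exact ⟨fun h' => h'.resolve_left h, Or.inr⟩

theorem mem_flip_self {e : Edg} {F : Finset Edg} : e ∈ flip e F ↔ e ∉ F := by
  unfold flip
  split_ifs with h
  · simp [h]
  · simp [h]

theorem flip_flip (e : Edg) (F : Finset Edg) : flip e (flip e F) = F := by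
  ext f
  by_cases h : f = e
  · subst h
    rw [mem_flip_self, mem_flip_self, not_not]
  · rw [mem_flip_ne h, mem_flip_ne h]

theorem flip_sub {e : Edg} {F S : Finset Edg} (he : e ∈ S) (hF : F ⊆ S) : flip e F ⊆ S := by
  unfold flip
  split_ifs
  · exact (Finset.erase_subset _ _).trans hF
  · exact Finset.insert_subset he hF

theorem mem_cfg_ne {f : Edg} (h : f ≠ e) : f ∈ D.cfg (flip e F) ↔ f ∈ D.cfg F := by
  unfold Dm.cfg
  simp only [Set.mem_union, Finset.mem_coe, mem_flip_ne h]

theorem mem_cfg_self (hw : e ∉ D.wir) : e ∈ D.cfg (flip e F) ↔ e ∉ D.cfg F := by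
  unfold Dm.cfg
  simp only [Set.mem_union, Finset.mem_coe, mem_flip_self, hw, or_false]

theorem nxt_ne {σ : St} (h : ae σ ≠ e) : nxt (D.cfg (flip e F)) σ = nxt (D.cfg F) σ := by
  by_cases h1 : ae σ ∈ D.cfg F
  · rw [nxt_open h1, nxt_open ((mem_cfg_ne h).2 h1)]
  · rw [nxt_closed h1, nxt_closed (fun h2 => h1 ((mem_cfg_ne h).1 h2))]

theorem mv_op (σ : St) : mv (op σ) = rt σ := by
  obtain ⟨⟨x, y⟩, q⟩ := σ
  cases q <;> simp [op]

theorem rt_op (σ : St) : rt (op σ) = mv σ := by
  obtain ⟨⟨x, y⟩, q⟩ := σ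
  cases q <;> simp [op]

theorem nxt_self (hw : e ∉ D.wir) {σ : St} (h : ae σ = e) :
    nxt (D.cfg (flip e F)) σ = nxt (D.cfg F) (op σ) := by
  by_cases h1 : e ∈ D.cfg F
  · have h2 : ae σ ∉ D.cfg (flip e F) := by
      rw [h]
      exact fun h3 => (mem_cfg_self hw).1 h3 h1
    rw [nxt_closed h2, nxt_open (by rw [ae_op, h]; exact h1), mv_op]
  · have h2 : ae σ ∈ D.cfg (flip e F) := by
      rw [h]
      exact (mem_cfg_self hw).2 h1
    rw [nxt_open h2, nxt_closed (by rw [ae_op, h]; exact h1), rt_op]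

theorem op_ne (σ : St) : op σ ≠ σ := by
  obtain ⟨⟨x, y⟩, q⟩ := σ
  cases q <;> simp [op]

theorem ae_eq {σ τ : St} (h : ae σ = ae τ) : τ = σ ∨ τ = op σ := by
  obtain ⟨⟨x, y⟩, q⟩ := σ
  obtain ⟨⟨x', y'⟩, q'⟩ := τ
  cases q <;> cases q' <;> simp_all [op]

/-! ## the path -/

theorem len_stop (hD : D.Ok) (hF : F ⊆ D.edges) : D.walk F (D.len F) = Dm.stop := walk_len hD hF

theorem walk_ne (hD : D.Ok) (hF : F ⊆ D.edges) {i j : ℕ} (hi : i ≤ D.len F) (hj : j ≤ D.len F)
    (h : D.walk F i = D.walk F j) : i = j := by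
  rcases Nat.lt_trichotomy i j with h1 | h1 | h1
  · exact absurd h (walk_inj hD hF h1 hj)
  · exact h1
  · exact absurd h.symm (walk_inj hD hF h1 hi)

theorem ne_stop {k : ℕ} (hk : k < D.len F) : D.walk F k ≠ Dm.stop := fun h =>
  absurd (Nat.sInf_le h) (not_le.2 hk)

theorem len_eq {m : ℕ} (h1 : D.walk F m = Dm.stop) (h2 : ∀ k < m, D.walk F k ≠ Dm.stop) :
    D.len F = m := by
  refine le_antisymm (Nat.sInf_le h1) ?_
  by_contra h
  push Not at h
  exact h2 _ h (Nat.sInf_mem (s := {k | D.walk F k = Dm.stop}) ⟨m, h1⟩)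

/-- the path examines `e` at the time `i` -/
def At (D : Dm) (F : Finset Edg) (e : Edg) (i : ℕ) : Prop := i < D.len F ∧ ae (D.walk F i) = e

theorem pre_eq {m : ℕ} (h : ∀ i < m, ae (D.walk F i) ≠ e) {j : ℕ} (hj : j ≤ m) :
    D.walk (flip e F) j = D.walk F j := by
  induction j with
  | zero => rfl
  | succ j ih =>
    rw [H984N.walk_succ, H984N.walk_succ, ih (by omega), nxt_ne (h j (by omega))]

/-- at most two times -/
theorem at_two (hD : D.Ok) (hF : F ⊆ D.edges) {i j k : ℕ} (hi : At D F e i) (hj : At D F e j)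
    (hk : At D F e k) (hij : i ≠ j) : k = i ∨ k = j := by
  rcases ae_eq (hi.2.trans hk.2.symm) with h | h
  · exact Or.inl (walk_ne hD hF hk.1.le hi.1.le h)
  · rcases ae_eq (hi.2.trans hj.2.symm) with h' | h'
    · exact absurd (walk_ne hD hF hj.1.le hi.1.le h').symm hij
    · exact Or.inr (walk_ne hD hF hk.1.le hj.1.le (h.trans h'.symm))

/-- an edge which is not examined has no influence -/
theorem none_len (hD : D.Ok) (hF : F ⊆ D.edges) (h : ∀ i, ¬ At D F e i) :
    D.len (flip e F) = D.len F ∧ ∀ j ≤ D.len F, D.walk (flip e F) j = D.walk F j := by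
  have h1 : ∀ j ≤ D.len F, D.walk (flip e F) j = D.walk F j := fun j hj =>
    pre_eq (m := D.len F) (fun i hi h' => h i ⟨hi, h'⟩) hj
  refine ⟨len_eq ?_ fun k hk => ?_, h1⟩
  · rw [h1 _ le_rfl, len_stop hD hF]
  · rw [h1 k hk.le]
    exact ne_stop hk

/-- twice becomes once: the piece between the two times is cut out -/
theorem cut (hD : D.Ok) (hF : F ⊆ D.edges) (hw : e ∉ D.wir) {i l : ℕ} (hil : i < l)
    (hi : At D F e i) (hl : At D F e l) :
    D.len (flip e F) = i + (D.len F - l) ∧ (∀ j ≤ i, D.walk (flip e F) j = D.walk F j) ∧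
    (∀ m, 1 ≤ m → l + m ≤ D.len F → D.walk (flip e F) (i + m) = D.walk F (l + m)) ∧
    ∀ k, At D F e k ↔ k = i ∨ k = l := by
  have hk : ∀ k, At D F e k ↔ k = i ∨ k = l := fun k =>
    ⟨fun h => at_two hD hF hi hl h hil.ne, fun h => by rcases h with rfl | rfl <;> assumption⟩
  have h1 : ∀ j ≤ i, D.walk (flip e F) j = D.walk F j := fun j hj =>
    pre_eq (m := i) (fun s hs h' => by
      have := (hk s).1 ⟨lt_trans hs hi.1, h'⟩
      omega) hj
  have h2 : D.walk F l = op (D.walk F i) := by
    rcases ae_eq (hi.2.trans hl.2.symm) with h | h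
    · exact absurd (walk_ne hD hF hl.1.le hi.1.le h) hil.ne'
    · exact h
  have h3 : ∀ m, 1 ≤ m → l + m ≤ D.len F → D.walk (flip e F) (i + m) = D.walk F (l + m) := by
    intro m hm
    induction m, hm using Nat.le_induction with
    | base =>
      intro _
      rw [H984N.walk_succ, h1 i le_rfl, nxt_self hw hi.2, ← h2, ← H984N.walk_succ]
    | succ m hm ih =>
      intro h
      rw [← add_assoc, ← add_assoc, H984N.walk_succ, H984N.walk_succ, ih (by omega), nxt_ne]
      intro h'
      have := (hk (l + m)).1 ⟨by omega, h'⟩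
      omega
  refine ⟨len_eq ?_ fun k hk' => ?_, h1, h3, hk⟩
  · rw [h3 _ (by have := hl.1; omega) (by have := hl.1; omega), Nat.add_sub_cancel' hl.1.le,
      len_stop hD hF]
  · rcases le_or_gt k i with h | h
    · rw [h1 k h]
      exact ne_stop (lt_of_le_of_lt h hi.1)
    · obtain ⟨m, rfl⟩ : ∃ m, k = i + m := ⟨k - i, by omega⟩
      rw [h3 m (by omega) (by omega)]
      exact ne_stop (by omega)

theorem cut_at (hD : D.Ok) (hF : F ⊆ D.edges) (hw : e ∉ D.wir) {i l : ℕ} (hil : i < l)
    (hi : At D F e i) (hl : At D F e l) (k : ℕ) : At D (flip e F) e k ↔ k = i := by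
  obtain ⟨h1, h2, h3, h4⟩ := cut hD hF hw hil hi hl
  have hl1 := hl.1
  constructor
  · rintro ⟨g1, g2⟩
    rcases le_or_gt k i with h | h
    · rw [h2 k h] at g2
      have := (h4 k).1 ⟨lt_of_le_of_lt h hi.1, g2⟩
      omega
    · obtain ⟨m, rfl⟩ : ∃ m, k = i + m := ⟨k - i, by omega⟩
      rw [h3 m (by omega) (by omega)] at g2
      have := (h4 (l + m)).1 ⟨by omega, g2⟩
      omega
  · rintro rfl
    refine ⟨by omega, ?_⟩
    rw [h2 _ le_rfl]
    exact hi.2

/-- the orbit after the edge `e` has been examined for the last time -/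
theorem tail_iter (hw : e ∉ D.wir) {i : ℕ} (hi : ae (D.walk F i) = e)
    (hl : ∀ k, i < k → k < D.len F → ae (D.walk F k) ≠ e) (m : ℕ) (hm : 1 ≤ m)
    (hm2 : i + m ≤ D.len F) :
    (nxt (D.cfg (flip e F)))^[m] (op (D.walk F i)) = D.walk F (i + m) := by
  induction m, hm using Nat.le_induction with
  | base =>
    rw [Function.iterate_one, nxt_self hw (by rw [ae_op, hi]), op_op, ← H984N.walk_succ]
  | succ m hm ih =>
    rw [Function.iterate_succ_apply', ih (by omega), ← add_assoc, H984N.walk_succ,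
      nxt_ne (hl (i + m) (by omega) (by omega))]

/-- once becomes twice -/
theorem once_twice (hD : D.Ok) (hF : F ⊆ D.edges) (he : e ∈ D.edges) (hw : e ∉ D.wir) {i : ℕ}
    (hi : At D F e i) (hu : ∀ k, At D F e k → k = i) :
    ∃ l, i < l ∧ At D (flip e F) e i ∧ At D (flip e F) e l := by
  have hF' := flip_sub he hF
  have h1 : ∀ j ≤ i, D.walk (flip e F) j = D.walk F j := fun j hj =>
    pre_eq (m := i) (fun s hs h' => by
      have := hu s ⟨lt_trans hs hi.1, h'⟩
      omega) hj
  have hi' : At D (flip e F) e i := by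
    refine ⟨?_, by rw [h1 i le_rfl]; exact hi.2⟩
    by_contra h
    push Not at h
    have h2 := len_stop hD hF'
    rw [h1 _ h] at h2
    exact ne_stop (lt_of_le_of_lt h hi.1) h2
  by_contra hc
  have hu' : ∀ k, i < k → k < D.len (flip e F) → ae (D.walk (flip e F) k) ≠ e := by
    intro k hk1 hk2 hk3
    exact hc ⟨k, hk1, hi', hk2, hk3⟩
  have hu2 : ∀ k, i < k → k < D.len F → ae (D.walk F k) ≠ e := by
    intro k hk1 hk2 hk3
    have := hu k ⟨hk2, hk3⟩
    omega
  set σ := D.walk F i with hσ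
  -- from `op σ` in `F'` the path of `F`, from `op σ` in `F` the path of `F'`
  have a1 := tail_iter hw hi.2 hu2 (D.len F - i) (by have := hi.1; omega) (by have := hi.1; omega)
  have a2 := tail_iter hw hi'.2 hu' (D.len (flip e F) - i) (by have := hi'.1; omega)
    (by have := hi'.1; omega)
  rw [Nat.add_sub_cancel' hi.1.le, len_stop hD hF] at a1
  rw [Nat.add_sub_cancel' hi'.1.le, len_stop hD hF', flip_flip, h1 i le_rfl] at a2
  -- orbits of `σ`
  have b1 : (nxt (D.cfg F))^[D.len F - i] σ = Dm.stop := by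
    have : D.walk F (D.len F) = Dm.stop := len_stop hD hF
    rw [← this]
    show _ = orb (D.cfg F) D.start (D.len F)
    conv_rhs => rw [show D.len F = (D.len F - i) + i by have := hi.1; omega]
    rw [orb_add]
    rfl
  set m1 := D.len F - i with hm1
  set m2 := D.len (flip e F) - i with hm2
  have hinj := (nxt_bij (D.cfg F)).1
  have c1 : 1 ≤ m2 := by have := hi'.1; omega
  have c2 : 1 ≤ m1 := by have := hi.1; omega
  rcases le_total m2 m1 with h | h
  · -- `op σ` is on the path of `F`
    have e1 : (nxt (D.cfg F))^[m2] ((nxt (D.cfg F))^[m1 - m2] σ) =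
        (nxt (D.cfg F))^[m2] (op σ) := by
      rw [← Function.iterate_add_apply, Nat.add_sub_cancel' h, b1, a2]
    have e2 := (hinj.iterate m2) e1
    have e3 : D.walk F (i + (m1 - m2)) = op σ := by
      rw [← e2]
      show orb (D.cfg F) D.start (i + (m1 - m2)) = _
      rw [add_comm, orb_add]
      rfl
    have e4 : At D F e (i + (m1 - m2)) := by
      refine ⟨by omega, ?_⟩
      rw [e3, ae_op]
      exact hi.2
    have e5 := hu _ e4
    have e6 : m1 - m2 = 0 := by omega
    rw [e6, add_zero] at e3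
    exact op_ne σ e3.symm
  · -- `σ` is again on the path of `F'`
    have b2 : (nxt (D.cfg (flip e F)))^[m2] σ = Dm.stop := by
      have : D.walk (flip e F) (D.len (flip e F)) = Dm.stop := len_stop hD hF'
      rw [← this]
      show _ = orb (D.cfg (flip e F)) D.start (D.len (flip e F))
      conv_rhs => rw [show D.len (flip e F) = m2 + i by have := hi'.1; omega]
      rw [orb_add]
      show _ = (nxt (D.cfg (flip e F)))^[m2] (D.walk (flip e F) i)
      rw [h1 i le_rfl]
    have e1 : (nxt (D.cfg (flip e F)))^[m1] ((nxt (D.cfg (flip e F)))^[m2 - m1] σ) =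
        (nxt (D.cfg (flip e F)))^[m1] (op σ) := by
      rw [← Function.iterate_add_apply, Nat.add_sub_cancel' h, b2, a1]
    have e2 := ((nxt_bij (D.cfg (flip e F))).1.iterate m1) e1
    have e3 : D.walk (flip e F) (i + (m2 - m1)) = op σ := by
      rw [← e2]
      show orb (D.cfg (flip e F)) D.start (i + (m2 - m1)) = _
      rw [add_comm, orb_add]
      show (nxt (D.cfg (flip e F)))^[m2 - m1] (D.walk (flip e F) i) = _
      rw [h1 i le_rfl]
    have e4 : m2 - m1 = 0 := by
      by_contra h6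
      refine hu' (i + (m2 - m1)) (by omega) (by omega) ?_
      rw [e3, ae_op]
      exact hi.2
    rw [e4, add_zero, h1 i le_rfl] at e3
    exact op_ne σ e3.symm

end Pool.Agent.Zk36.TT
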