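import Pool.Agent.Zk36.TT.Fin

/-!
# Exploration path: the two thirds law in rectangles
-/

set_option autoImplicit false

namespace Pool.Agent.Zk36.TT

open H974 Finset H342P H984P H984N H984P.SideAux Pool.Agent.W92.DP H12S H389NS

open Classical in
/-- the steps of the exploration path at which `e` is examined -/
noncomputable def times (D : Dm) (F : Finset Edg) (e : Edg) : Finset ℕ :=
  (Finset.range (D.len F)).filter (fun i => ae (D.walk F i) = e)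

theorem mem_times {D : Dm} {F : Finset Edg} {e : Edg} {i : ℕ} : i ∈ times D F e ↔ At D F e i := by
  unfold times At
  rw [Finset.mem_filter, Finset.mem_range]

theorem times_card (D : Dm) (F : Finset Edg) (e : Edg) : (times D F e).card = cnt D F e 0 := by
  unfold times cnt
  rw [Finset.range_eq_Ico]

theorem times_le {D : Dm} (hD : D.Ok) {F : Finset Edg} (hF : F ⊆ D.edges) (e : Edg) :
    (times D F e).card ≤ 2 := by
  rw [times_card]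
  rcases tricho D F e with h | ⟨i, h⟩ | ⟨i, l, h⟩
  · rw [cnt_none h]; omega
  · rw [cnt_once h]; split_ifs <;> omega
  · rw [cnt_twice hD hF h]; split_ifs <;> omega

theorem xi_eq {D : Dm} (hD : D.Ok) {F : Finset Edg} (hF : F ⊆ D.edges) (e : Edg) (k : ℕ) :
    xi D k e F = ind ((∀ i ∈ times D F e, k ≤ i) ∧ (times D F e).card = 1) -
      ind ((∀ i ∈ times D F e, k ≤ i) ∧ (times D F e).card = 2) := by
  rw [times_card]
  rcases tricho D F e with h | ⟨i, h⟩ | ⟨i, l, h⟩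
  · rw [xi_none h, cnt_none h, ind_not_of, ind_not_of, sub_zero]
    · omega
    · omega
  · have hc : cnt D F e 0 = 1 := by rw [cnt_once h]; simp
    rw [xi_once h, hc, ind_not_of (P := _ ∧ 1 = 2) (by omega), sub_zero]
    split_ifs with hk
    · rw [ind_of]
      refine ⟨fun j hj => ?_, rfl⟩
      have := h.2 j (mem_times.1 hj)
      omega
    · rw [ind_not_of]
      rintro ⟨h1, -⟩
      exact hk (h1 i (mem_times.2 h.1))
  · have hc : cnt D F e 0 = 2 := by rw [cnt_twice hD hF h]; simp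
    rw [xi_twice hD hF h, hc, ind_not_of (P := _ ∧ 2 = 1) (by omega), zero_sub]
    have hil := h.1
    split_ifs with hk
    · rw [ind_of]
      refine ⟨fun j hj => ?_, rfl⟩
      have := (h.iff hD hF j).1 (mem_times.1 hj)
      omega
    · rw [ind_not_of, neg_zero]
      rintro ⟨h1, -⟩
      exact hk (h1 i (mem_times.2 h.2.1))

/-- once and twice have the same probability -/
theorem once_eq_twice {D : Dm} (hD : D.Ok) {e : Edg} (he : e ∈ D.edges) (hw : e ∉ D.wir) (k : ℕ) :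
    P D.edges (fun F => (∀ i ∈ times D F e, k ≤ i) ∧ (times D F e).card = 1) =
      P D.edges (fun F => (∀ i ∈ times D F e, k ≤ i) ∧ (times D F e).card = 2) := by
  have h1 := E_flip he (fun F => xi D k e F)
  have h2 : E D.edges (fun F => xi D k e (flip e F)) = E D.edges (fun F => -1 * xi D k e F) := by
    apply Ex_congr
    intro F hF
    rw [xi_flip hD hF he hw]
    ring
  have h3 : E D.edges (fun F => -1 * xi D k e F) = - E D.edges (fun F => xi D k e F) := by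
    unfold E
    rw [Ex_mul_left]
    ring
  have h4 : E D.edges (fun F => xi D k e F) =
      P D.edges (fun F => (∀ i ∈ times D F e, k ≤ i) ∧ (times D F e).card = 1) -
      P D.edges (fun F => (∀ i ∈ times D F e, k ≤ i) ∧ (times D F e).card = 2) := by
    have h5 : E D.edges (fun F => xi D k e F) = E D.edges (fun F =>
        ind ((∀ i ∈ times D F e, k ≤ i) ∧ (times D F e).card = 1) -
        ind ((∀ i ∈ times D F e, k ≤ i) ∧ (times D F e).card = 2)) := by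
      apply Ex_congr
      intro F hF
      exact xi_eq hD hF e k
    rw [h5]
    unfold E
    rw [Ex_sub]
    rfl
  have h5 : E D.edges (fun F => xi D k e (flip e F)) = E D.edges (fun F => xi D k e F) := h1
  linarith

/-- all times, in terms of the mesh -/
theorem rect_all (hA : St_Aa) (hd : St_Ad) {Cu : ℝ} (hCu : 0 < Cu) (hU : TwoUp Cu (1/4))
    (R : Rect) : ∃ δ0 : ℝ, 0 < δ0 ∧ ∀ δ : ℝ, 0 < δ → δ ≤ δ0 →
      (R.dm δ).Ok ∧ 1 - δ ^ (1/25 : ℝ) ≤ R.prob δ (fun F => ∀ k ≤ (R.dm δ).len F,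
        |((disc (R.dm δ) F k).card : ℝ) - 2 / 3 * k| ≤ δ ^ (1/25 - 7/4 : ℝ) ∧
        |((discO (R.dm δ) F k).card : ℝ) - 1 / 3 * k| ≤ δ ^ (1/25 - 7/4 : ℝ)) := by
  obtain ⟨C, hC, h⟩ := dev hA hd hCu hU
  obtain ⟨κ, S, δ1, hκ, hS, hδ1, hδ1', hsh⟩ := R.shape
  -- small mesh
  have hlim : ∀ a : ℝ, 0 < a → ∀ b : ℝ, 0 < b → ∃ δ0 : ℝ, 0 < δ0 ∧ ∀ δ : ℝ, 0 < δ → δ ≤ δ0 →
      b * δ ^ a ≤ 1 := by
    intro a ha b hb
    refine ⟨(1 / b) ^ (1 / a), by positivity, fun δ hδ hle => ?_⟩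
    have h1 : δ ^ a ≤ ((1 / b) ^ (1 / a)) ^ a := Real.rpow_le_rpow hδ.le hle ha.le
    rw [← Real.rpow_mul (by positivity), one_div_mul_cancel ha.ne', Real.rpow_one] at h1
    calc b * δ ^ a ≤ b * (1 / b) := mul_le_mul_of_nonneg_left h1 hb.le
      _ = 1 := by field_simp
  obtain ⟨d1, hd1, H1⟩ := hlim (1/24 - 1/25) (by norm_num) (C * S ^ (-(1/24) : ℝ)) (by positivity)
  obtain ⟨d2, hd2, H2⟩ := hlim (1/24 - 1/25) (by norm_num) (S ^ (41/24 : ℝ)) (by positivity)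
  refine ⟨min (min δ1 (S / 12)) (min d1 d2), by positivity, ?_⟩
  intro δ hδ hle
  rw [le_min_iff, le_min_iff, le_min_iff] at hle
  obtain ⟨⟨l1, l2⟩, l3, l4⟩ := hle
  have hs := hsh δ hδ l1
  have hn : 12 ≤ S / δ := by
    rw [le_div_iff₀ hδ]
    linarith
  have hsz : Sz (R.dm δ) (S / δ) := ⟨hs.ok, by linarith, hs.w_le, hs.h_le⟩
  refine ⟨hs.ok, ?_⟩
  have key := h (R.dm δ) (S / δ) hsz hn
  have e1 : C * (S / δ) ^ (-(1/24) : ℝ) ≤ δ ^ (1/25 : ℝ) := by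
    rw [Real.div_rpow hS.le hδ.le, Real.rpow_neg hδ.le, div_inv_eq_mul]
    have h1 : δ ^ (1/24 : ℝ) = δ ^ (1/24 - 1/25 : ℝ) * δ ^ (1/25 : ℝ) := by
      rw [← Real.rpow_add hδ]
      norm_num
    rw [h1]
    have h2 := H1 δ hδ l3
    have h3 : 0 ≤ δ ^ (1/25 : ℝ) := by positivity
    calc C * (S ^ (-(1/24) : ℝ) * (δ ^ (1/24 - 1/25 : ℝ) * δ ^ (1/25 : ℝ))) =
        (C * S ^ (-(1/24) : ℝ) * δ ^ (1/24 - 1/25 : ℝ)) * δ ^ (1/25 : ℝ) := by ring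
      _ ≤ 1 * δ ^ (1/25 : ℝ) := mul_le_mul_of_nonneg_right h2 h3
      _ = _ := one_mul _
  have e2 : (S / δ) ^ (41/24 : ℝ) ≤ δ ^ (1/25 - 7/4 : ℝ) := by
    have h1 : (S / δ) ^ (41/24 : ℝ) =
        (S ^ (41/24 : ℝ) * δ ^ (1/24 - 1/25 : ℝ)) * δ ^ (1/25 - 7/4 : ℝ) := by
      rw [Real.div_rpow hS.le hδ.le, mul_assoc, ← Real.rpow_add hδ, div_eq_mul_inv,
        ← Real.rpow_neg hδ.le]
      norm_num
    rw [h1]
    have h3 : 0 ≤ δ ^ (1/25 - 7/4 : ℝ) := by positivity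
    calc _ ≤ 1 * δ ^ (1/25 - 7/4 : ℝ) := mul_le_mul_of_nonneg_right (H2 δ hδ l4) h3
      _ = _ := one_mul _
  have c1 := Pr_not (p := fun _ => (1/2:ℝ)) (R.dm δ).edges (fun F => ∃ k ≤ (R.dm δ).len F,
    (S / δ) ^ (41/24 : ℝ) < g1 (R.dm δ) k F ∨ (S / δ) ^ (41/24 : ℝ) < g2 (R.dm δ) k F)
  have c2 : P (R.dm δ).edges (fun F => ¬ ∃ k ≤ (R.dm δ).len F,
      (S / δ) ^ (41/24 : ℝ) < g1 (R.dm δ) k F ∨ (S / δ) ^ (41/24 : ℝ) < g2 (R.dm δ) k F) ≤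
      R.prob δ (fun F => ∀ k ≤ (R.dm δ).len F,
        |((disc (R.dm δ) F k).card : ℝ) - 2 / 3 * k| ≤ δ ^ (1/25 - 7/4 : ℝ) ∧
        |((discO (R.dm δ) F k).card : ℝ) - 1 / 3 * k| ≤ δ ^ (1/25 - 7/4 : ℝ)) := by
    refine Pr_mono okh fun F _ hF k hk => ?_
    push Not at hF
    obtain ⟨h1, h2⟩ := hF k hk
    unfold g1 at h1
    unfold g2 at h2
    replace h1 := h1.trans e2
    replace h2 := h2.trans e2
    rw [abs_le] at h1 h2
    have hp : 0 ≤ δ ^ (1/25 - 7/4 : ℝ) := by positivity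
    constructor <;> rw [abs_le] <;> constructor <;> linarith
  have c3 : P (R.dm δ).edges (fun F => ∃ k ≤ (R.dm δ).len F,
      (S / δ) ^ (41/24 : ℝ) < g1 (R.dm δ) k F ∨ (S / δ) ^ (41/24 : ℝ) < g2 (R.dm δ) k F) ≤
      δ ^ (1/25 : ℝ) := key.trans e1
  unfold P at c2 c3
  linarith

/-- relative to the number of steps -/
theorem rect_rel (R : Rect) {δ1 : ℝ} (hδ1 : 0 < δ1) (h1 : ∀ δ : ℝ, 0 < δ → δ ≤ δ1 →
      1 - δ ^ (1/25 : ℝ) ≤ R.prob δ (fun F => ∀ k ≤ (R.dm δ).len F,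
        |((disc (R.dm δ) F k).card : ℝ) - 2 / 3 * k| ≤ δ ^ (1/25 - 7/4 : ℝ) ∧
        |((discO (R.dm δ) F k).card : ℝ) - 1 / 3 * k| ≤ δ ^ (1/25 - 7/4 : ℝ)))
    {ε : ℝ} (hε : 0 < ε) {Λ δ2 : ℝ} (hΛ : 0 < Λ) (hδ2 : 0 < δ2)
    (h2 : ∀ δ : ℝ, 0 < δ → δ ≤ δ2 → 1 - ε / 2 ≤ R.prob δ (fun F => 1 / Λ ≤ R.time δ F)) :
    ∃ δ0 : ℝ, 0 < δ0 ∧ ∀ δ : ℝ, 0 < δ → δ ≤ δ0 →
      1 - ε ≤ R.prob δ (fun F => 0 < (R.dm δ).len F ∧ ∀ k ≤ (R.dm δ).len F,
        |((disc (R.dm δ) F k).card : ℝ) - 2 / 3 * k| ≤ ε * (R.dm δ).len F ∧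
        |((discO (R.dm δ) F k).card : ℝ) - 1 / 3 * k| ≤ ε * (R.dm δ).len F) := by
  have hq : (0:ℝ) < 1/25 := by norm_num
  obtain ⟨a, ha⟩ : ∃ a : ℝ, a = min (ε / 2) (ε / Λ) := ⟨_, rfl⟩
  have ha0 : 0 < a := by rw [ha]; positivity
  refine ⟨min (min δ1 δ2) (a ^ (25:ℝ)), by positivity, ?_⟩
  intro δ hδ hle
  rw [le_min_iff, le_min_iff] at hle
  obtain ⟨⟨l1, l2⟩, l3⟩ := hle
  have hs : δ ^ (1/25 : ℝ) ≤ a := by
    have := Real.rpow_le_rpow hδ.le l3 hq.le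
    rw [← Real.rpow_mul ha0.le] at this
    norm_num at this ⊢
    exact this
  have e1 : δ ^ (1/25 : ℝ) ≤ ε / 2 := hs.trans (by rw [ha]; exact min_le_left _ _)
  have e2 : δ ^ (1/25 : ℝ) ≤ ε / Λ := hs.trans (by rw [ha]; exact min_le_right _ _)
  have k1 := h1 δ hδ l1
  have k2 := h2 δ hδ l2
  have key : R.prob δ (fun F => ∀ k ≤ (R.dm δ).len F,
        |((disc (R.dm δ) F k).card : ℝ) - 2 / 3 * k| ≤ δ ^ (1/25 - 7/4 : ℝ) ∧
        |((discO (R.dm δ) F k).card : ℝ) - 1 / 3 * k| ≤ δ ^ (1/25 - 7/4 : ℝ)) +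
      R.prob δ (fun F => 1 / Λ ≤ R.time δ F) ≤ 1 +
      R.prob δ (fun F => 0 < (R.dm δ).len F ∧ ∀ k ≤ (R.dm δ).len F,
        |((disc (R.dm δ) F k).card : ℝ) - 2 / 3 * k| ≤ ε * (R.dm δ).len F ∧
        |((discO (R.dm δ) F k).card : ℝ) - 1 / 3 * k| ≤ ε * (R.dm δ).len F) := by
    have himp : ∀ F, (∀ k ≤ (R.dm δ).len F,
        |((disc (R.dm δ) F k).card : ℝ) - 2 / 3 * k| ≤ δ ^ (1/25 - 7/4 : ℝ) ∧
        |((discO (R.dm δ) F k).card : ℝ) - 1 / 3 * k| ≤ δ ^ (1/25 - 7/4 : ℝ)) →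
        1 / Λ ≤ R.time δ F → 0 < (R.dm δ).len F ∧ ∀ k ≤ (R.dm δ).len F,
        |((disc (R.dm δ) F k).card : ℝ) - 2 / 3 * k| ≤ ε * (R.dm δ).len F ∧
        |((discO (R.dm δ) F k).card : ℝ) - 1 / 3 * k| ≤ ε * (R.dm δ).len F := by
      intro F hA hB
      unfold Rect.time at hB
      have hp : 0 < δ ^ (7/4 : ℝ) := by positivity
      have hΛ' : 0 < 1 / Λ := by positivity
      have hl0 : (0:ℝ) < (R.dm δ).len F := by
        by_contra hc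
        push Not at hc
        have h0 : δ ^ (7/4 : ℝ) * ((R.dm δ).len F : ℝ) ≤ 0 :=
          mul_nonpos_of_nonneg_of_nonpos hp.le hc
        linarith
      refine ⟨by exact_mod_cast hl0, fun k hk => ?_⟩
      have hb : δ ^ (1/25 - 7/4 : ℝ) ≤ ε * (R.dm δ).len F := by
        have h3 : δ ^ (1/25 - 7/4 : ℝ) = δ ^ (1/25 : ℝ) / δ ^ (7/4 : ℝ) := Real.rpow_sub hδ _ _
        rw [h3, div_le_iff₀ hp]
        calc δ ^ (1/25 : ℝ) ≤ ε / Λ := e2
          _ = ε * (1 / Λ) := by ring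
          _ ≤ ε * (δ ^ (7/4 : ℝ) * (R.dm δ).len F) := mul_le_mul_of_nonneg_left hB hε.le
          _ = _ := by ring
      exact ⟨(hA k hk).1.trans hb, (hA k hk).2.trans hb⟩
    unfold Rect.prob P Pr
    rw [← Ex_add]
    have hE : Ex (fun _ => (1/2:ℝ)) (R.dm δ).edges (fun F => 1 +
        ind (0 < (R.dm δ).len F ∧ ∀ k ≤ (R.dm δ).len F,
        |((disc (R.dm δ) F k).card : ℝ) - 2 / 3 * k| ≤ ε * (R.dm δ).len F ∧
        |((discO (R.dm δ) F k).card : ℝ) - 1 / 3 * k| ≤ ε * (R.dm δ).len F)) = 1 +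
        Ex (fun _ => (1/2:ℝ)) (R.dm δ).edges (fun F =>
        ind (0 < (R.dm δ).len F ∧ ∀ k ≤ (R.dm δ).len F,
        |((disc (R.dm δ) F k).card : ℝ) - 2 / 3 * k| ≤ ε * (R.dm δ).len F ∧
        |((discO (R.dm δ) F k).card : ℝ) - 1 / 3 * k| ≤ ε * (R.dm δ).len F)) := by
      rw [Ex_add, Ex_const]
    rw [← hE]
    refine Ex_mono okh fun F _ => ?_
    by_cases hA : ∀ k ≤ (R.dm δ).len F,
        |((disc (R.dm δ) F k).card : ℝ) - 2 / 3 * k| ≤ δ ^ (1/25 - 7/4 : ℝ) ∧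
        |((discO (R.dm δ) F k).card : ℝ) - 1 / 3 * k| ≤ δ ^ (1/25 - 7/4 : ℝ)
    · by_cases hB : 1 / Λ ≤ R.time δ F
      · rw [ind_of hA, ind_of hB, ind_of (himp F hA hB)]
      · rw [ind_of hA, ind_not_of hB]
        linarith [ind_nonneg (P := 0 < (R.dm δ).len F ∧ ∀ k ≤ (R.dm δ).len F,
          |((disc (R.dm δ) F k).card : ℝ) - 2 / 3 * k| ≤ ε * (R.dm δ).len F ∧
          |((discO (R.dm δ) F k).card : ℝ) - 1 / 3 * k| ≤ ε * (R.dm δ).len F)]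
    · rw [ind_not_of hA]
      linarith [ind_nonneg (P := 0 < (R.dm δ).len F ∧ ∀ k ≤ (R.dm δ).len F,
          |((disc (R.dm δ) F k).card : ℝ) - 2 / 3 * k| ≤ ε * (R.dm δ).len F ∧
          |((discO (R.dm δ) F k).card : ℝ) - 1 / 3 * k| ≤ ε * (R.dm δ).len F),
        ind_le_one (1 / Λ ≤ R.time δ F)]
  linarith

end Pool.Agent.Zk36.TT
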