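import Pool.Agent.Zk36.TT.Exc
import Pool.Agent.H984R4.NP.Moments

/-!
# Exploration path: moment bounds
-/

set_option autoImplicit false

namespace Pool.Agent.Zk36.TT

open H974 Finset H342P H984P H984N H984P.SideAux Pool.Agent.W92.DP H12S H389NS

open Classical in
/-- interior edges -/
noncomputable def I (D : Dm) (ρ : ℕ) : Finset Edg := D.edges.filter (fun e => (ρ:ℤ) ≤ D.bd (src e))

theorem mem_I {D : Dm} {ρ : ℕ} {e : Edg} : e ∈ I D ρ ↔ e ∈ D.edges ∧ (ρ:ℤ) ≤ D.bd (src e) := by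
  unfold I
  rw [Finset.mem_filter]

theorem wir_bd {D : Dm} {e : Edg} (h : e ∈ D.wir) : D.bd (src e) ≤ 0 := by
  obtain ⟨x, y, b⟩ := e
  change (b = true ∧ y = D.h ∧ D.l ≤ x ∧ x < D.t) ∨
      (b = false ∧ x = D.l ∧ 0 ≤ y ∧ y < D.h) ∨ (b = true ∧ y = 0 ∧ D.l ≤ x ∧ x < 0) at h
  rw [src_mk]
  unfold Dm.bd
  simp only
  omega

theorem I_nwir {D : Dm} {ρ : ℕ} (hρ : 1 ≤ ρ) {e : Edg} (h : e ∈ I D ρ) : e ∉ D.wir := by
  intro h2
  have h3 := wir_bd h2
  have h4 := (mem_I.1 h).2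
  omega

/-- sizes -/
structure Sz (D : Dm) (n : ℝ) : Prop where
  ok : D.Ok
  one : 1 ≤ n
  w : ((D.r - D.l : ℤ) : ℝ) ≤ n
  h : (D.h : ℝ) ≤ n

theorem sum_edges (D : Dm) (g : Vtx → ℝ) (hg : ∀ v, 0 ≤ g v) :
    ∑ f ∈ D.edges, g (src f) ≤ 2 * ∑ v ∈ Finset.Icc D.l D.r ×ˢ Finset.Icc 0 D.h, g v := by
  have hsub : D.edges ⊆ Finset.Icc D.l D.r ×ˢ (Finset.Icc 0 D.h ×ˢ (Finset.univ : Finset Bool)) := by
    rintro ⟨x, y, b⟩ he
    unfold Dm.edges at he
    rw [Finset.mem_product, Finset.mem_product, Finset.mem_Icc, Finset.mem_Icc]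
    cases b
    · rw [mem_RE_false] at he
      exact ⟨by simp only; omega, by simp only; omega, Finset.mem_univ _⟩
    · rw [mem_RE_true] at he
      exact ⟨by simp only; omega, by simp only; omega, Finset.mem_univ _⟩
  refine (Finset.sum_le_sum_of_subset_of_nonneg hsub fun f _ _ => hg _).trans (le_of_eq ?_)
  rw [Finset.sum_product, Finset.sum_product, Finset.mul_sum]
  refine Finset.sum_congr rfl fun x _ => ?_
  rw [Finset.sum_product, Finset.mul_sum]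
  refine Finset.sum_congr rfl fun y _ => ?_
  simp only [src_mk]
  rw [Finset.sum_const, Finset.card_univ, Fintype.card_bool, nsmul_eq_mul]
  norm_num

theorem card_rect {D : Dm} {n : ℝ} (h : Sz D n) :
    (((Finset.Icc D.l D.r ×ˢ Finset.Icc 0 D.h).card : ℕ) : ℝ) ≤ 4 * n ^ 2 := by
  have h0 := h.ok.l_neg
  have h1 := h.ok.r_pos
  have h2 := h.ok.h_pos
  rw [Finset.card_product, Int.card_Icc, Int.card_Icc]
  push_cast
  have e1 : (((D.r + 1 - D.l).toNat : ℕ) : ℝ) = ((D.r - D.l : ℤ) : ℝ) + 1 := by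
    have : (((D.r + 1 - D.l).toNat : ℕ) : ℤ) = D.r - D.l + 1 := by omega
    exact_mod_cast this
  have e2 : (((D.h + 1 - 0).toNat : ℕ) : ℝ) = (D.h : ℝ) + 1 := by
    have : (((D.h + 1 - 0).toNat : ℕ) : ℤ) = D.h + 1 := by omega
    exact_mod_cast this
  rw [e1, e2]
  have h3 := h.w
  have h4 := h.h
  have h5 := h.one
  have h6 : (0:ℝ) ≤ ((D.r - D.l : ℤ) : ℝ) := by exact_mod_cast (by omega : 0 ≤ D.r - D.l)
  have h7 : (0:ℝ) ≤ (D.h : ℝ) := by exact_mod_cast h2.le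
  nlinarith

theorem card_edges {D : Dm} {n : ℝ} (h : Sz D n) : ((D.edges.card : ℕ) : ℝ) ≤ 8 * n ^ 2 := by
  have h1 := sum_edges D (fun _ => (1:ℝ)) (fun _ => zero_le_one)
  rw [Finset.sum_const, Finset.sum_const, nsmul_eq_mul, nsmul_eq_mul, mul_one, mul_one] at h1
  have h2 := card_rect h
  linarith

theorem E_sum {S : Finset Edg} {ι : Type*} (T : Finset ι) (f : ι → Finset Edg → ℝ) :
    E S (fun F => ∑ i ∈ T, f i F) = ∑ i ∈ T, E S (f i) := Ex_sum _ _ _ _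

/-- the signed number of interior edges -/
noncomputable def W (D : Dm) (ρ k : ℕ) (F : Finset Edg) : ℝ := ∑ e ∈ I D ρ, xi D k e F

/-- second moment -/
theorem W_moment (hA : St_Aa) (hd : St_Ad) : ∃ C : ℝ, 0 < C ∧ ∀ (D : Dm) (n : ℝ) (ρ k : ℕ), Sz D n →
    1 ≤ ρ → E D.edges (fun F => W D ρ k F ^ 2) ≤
      C * (n ^ (11/4 : ℝ) + n ^ (4:ℝ) * (ρ : ℝ) ^ (-(5/4) : ℝ)) := by
  obtain ⟨C, hC, h⟩ := tw_prob hA hd
  refine ⟨8 * (1 + 2 * C * (2 + 8 * (1 + 1 / (1 - (5/4) / 2)) ^ 2 + 8)), by positivity, ?_⟩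
  intro D n ρ k hs hρ
  have hn := hs.one
  have hn0 : 0 < n := by linarith
  set c1 : ℝ := (1 + 1 / (1 - (5/4) / 2)) ^ 2 with hc1
  have hc1' : 0 ≤ c1 := by positivity
  have hρ0 : 0 ≤ (ρ : ℝ) ^ (-(5/4) : ℝ) := by positivity
  have e1 : E D.edges (fun F => W D ρ k F ^ 2) =
      ∑ e ∈ I D ρ, ∑ f ∈ I D ρ, E D.edges (fun F => xi D k e F * xi D k f F) := by
    have : (fun F => W D ρ k F ^ 2) =
        fun F => ∑ e ∈ I D ρ, ∑ f ∈ I D ρ, xi D k e F * xi D k f F := by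
      funext F
      unfold W
      rw [sq, Finset.sum_mul_sum]
    rw [this, E_sum]
    exact Finset.sum_congr rfl fun e _ => E_sum _ _
  rw [e1]
  have hrow : ∀ e ∈ I D ρ, ∑ f ∈ I D ρ, E D.edges (fun F => xi D k e F * xi D k f F) ≤
      1 + 2 * C * (2 * (1 + 4 * c1 * n ^ (3/4 : ℝ)) + 8 * n ^ 2 * (ρ : ℝ) ^ (-(5/4) : ℝ)) := by
    intro e he
    obtain ⟨he1, he2⟩ := mem_I.1 he
    have hw := I_nwir hρ he
    have h1 : ∀ f ∈ I D ρ, E D.edges (fun F => xi D k e F * xi D k f F) ≤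
        (if f = e then 1 else 0) + 2 * C * ((if src e = src f then 1 else
          ((sd (src e) (src f) : ℤ) : ℝ) ^ (-(5/4) : ℝ)) + (ρ : ℝ) ^ (-(5/4) : ℝ)) := by
      intro f hf
      have hnn : 0 ≤ (if src e = src f then 1 else
          ((sd (src e) (src f) : ℤ) : ℝ) ^ (-(5/4) : ℝ)) := by
        split_ifs
        · exact zero_le_one
        · apply Real.rpow_nonneg
          have : 0 ≤ sd (src e) (src f) := le_max_of_le_left (abs_nonneg _)
          exact_mod_cast this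
      by_cases hef : f = e
      · rw [if_pos hef]
        have h2 : E D.edges (fun F => xi D k e F * xi D k f F) ≤ 1 := by
          refine Ex_le_of_le okh fun F _ => ?_
          refine (le_abs_self _).trans ?_
          rw [abs_mul]
          exact mul_le_one₀ (xi_abs _ _ _) (abs_nonneg _) (xi_abs _ _ _)
        have h3 : 0 ≤ 2 * C * ((if src e = src f then 1 else
          ((sd (src e) (src f) : ℤ) : ℝ) ^ (-(5/4) : ℝ)) + (ρ : ℝ) ^ (-(5/4) : ℝ)) := by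
          positivity
        linarith
      · rw [if_neg hef, zero_add]
        have h2 := (le_abs_self _).trans (cov hs.ok he1 hw hef k)
        have h3 := h D hs.ok e f ρ hρ he2
        linarith
    refine (Finset.sum_le_sum h1).trans ?_
    rw [Finset.sum_add_distrib, Finset.sum_ite_eq', if_pos he, ← Finset.mul_sum,
      Finset.sum_add_distrib]
    have hu : src e ∈ Finset.Icc D.l D.r ×ˢ Finset.Icc 0 D.h := by
      obtain ⟨x, y, b⟩ := e
      unfold Dm.edges at he1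
      rw [src_mk, Finset.mem_product, Finset.mem_Icc, Finset.mem_Icc]
      cases b
      · rw [mem_RE_false] at he1
        exact ⟨by simp only; omega, by simp only; omega⟩
      · rw [mem_RE_true] at he1
        exact ⟨by simp only; omega, by simp only; omega⟩
    have hnn : ∀ v : Vtx, 0 ≤ (if src e = v then (1:ℝ) else
          ((sd (src e) v : ℤ) : ℝ) ^ (-(5/4) : ℝ)) := by
      intro v
      split_ifs
      · exact zero_le_one
      · apply Real.rpow_nonneg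
        have : 0 ≤ sd (src e) v := le_max_of_le_left (abs_nonneg _)
        exact_mod_cast this
    have s1 : ∑ f ∈ I D ρ, (if src e = src f then (1:ℝ) else
          ((sd (src e) (src f) : ℤ) : ℝ) ^ (-(5/4) : ℝ)) ≤ 2 * (1 + 4 * c1 * n ^ (3/4 : ℝ)) := by
      have hsub : I D ρ ⊆ D.edges := Finset.filter_subset _ _
      refine (Finset.sum_le_sum_of_subset_of_nonneg hsub fun f _ _ => hnn _).trans ?_
      refine (sum_edges D _ hnn).trans ?_
      refine mul_le_mul_of_nonneg_left ?_ (by norm_num)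
      have e2 : ∀ v : Vtx, (if src e = v then (1:ℝ) else
          ((sd (src e) v : ℤ) : ℝ) ^ (-(5/4) : ℝ)) = (if src e = v then (1:ℝ) else 0) +
          (if src e = v then (0:ℝ) else ((sd (src e) v : ℤ) : ℝ) ^ (-(5/4) : ℝ)) := by
        intro v
        split_ifs <;> simp
      rw [Finset.sum_congr rfl (fun v _ => e2 v), Finset.sum_add_distrib, Finset.sum_ite_eq,
        if_pos hu]
      have h3 := sumb_two (a := 5/4) (by norm_num) (by norm_num) hs.ok hn hs.w hs.h hu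
      have h4 : (2 - 5/4 : ℝ) = 3/4 := by norm_num
      rw [h4] at h3
      linarith
    have s2 : ∑ f ∈ I D ρ, (ρ : ℝ) ^ (-(5/4) : ℝ) ≤ 8 * n ^ 2 * (ρ : ℝ) ^ (-(5/4) : ℝ) := by
      rw [Finset.sum_const, nsmul_eq_mul]
      refine mul_le_mul_of_nonneg_right ?_ hρ0
      refine le_trans ?_ (card_edges hs)
      exact_mod_cast Finset.card_filter_le _ _
    have s3 := mul_le_mul_of_nonneg_left (add_le_add s1 s2) (by positivity : 0 ≤ 2 * C)
    linarith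
  refine (Finset.sum_le_card_nsmul _ _ _ hrow).trans ?_
  rw [nsmul_eq_mul]
  have hcI : (((I D ρ).card : ℕ) : ℝ) ≤ 8 * n ^ 2 := by
    refine le_trans ?_ (card_edges hs)
    exact_mod_cast Finset.card_filter_le _ _
  have p1 : n ^ 2 * n ^ (3/4 : ℝ) = n ^ (11/4 : ℝ) := by
    rw [← Real.rpow_natCast, ← Real.rpow_add hn0]
    norm_num
  have p2 : n ^ 2 * n ^ 2 = n ^ (4:ℝ) := by
    rw [← Real.rpow_natCast, ← Real.rpow_add hn0]
    norm_num
  have p3 : n ^ 2 ≤ n ^ (11/4 : ℝ) := by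
    rw [← Real.rpow_natCast]
    exact Real.rpow_le_rpow_of_exponent_le hn (by norm_num)
  have hrow0 : 0 ≤ 1 + 2 * C * (2 * (1 + 4 * c1 * n ^ (3/4 : ℝ)) +
      8 * n ^ 2 * (ρ : ℝ) ^ (-(5/4) : ℝ)) := by positivity
  refine (mul_le_mul_of_nonneg_right hcI hrow0).trans ?_
  set a := (ρ : ℝ) ^ (-(5/4) : ℝ) with ha
  have e3 : 8 * n ^ 2 * (1 + 2 * C * (2 * (1 + 4 * c1 * n ^ (3/4 : ℝ)) + 8 * n ^ 2 * a)) =
      8 * ((1 + 4 * C) * n ^ 2 + 16 * C * c1 * (n ^ 2 * n ^ (3/4 : ℝ)) +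
        16 * C * ((n ^ 2 * n ^ 2) * a)) := by ring
  rw [e3, p1, p2]
  have q1 : 0 ≤ n ^ (4:ℝ) * a := by positivity
  have q2 : 0 ≤ n ^ (11/4 : ℝ) := by positivity
  have q3 : (1 + 4 * C) * n ^ 2 ≤ (1 + 4 * C) * n ^ (11/4 : ℝ) :=
    mul_le_mul_of_nonneg_left p3 (by positivity)
  have q4 : 0 ≤ C * c1 * (n ^ (4:ℝ) * a) := by positivity
  have q5 : 0 ≤ C * (n ^ (4:ℝ) * a) := by positivity
  have q6 : 0 ≤ C * n ^ (11/4 : ℝ) := by positivity
  nlinarith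

/-- examined before and after `k` -/
def Rk (D : Dm) (F : Finset Edg) (e : Edg) (k : ℕ) : Prop :=
  ∃ i l, i < k ∧ k ≤ l ∧ At D F e i ∧ At D F e l

/-- number of interior edges which are examined before and after the time `k` -/
noncomputable def rr (D : Dm) (ρ k : ℕ) (F : Finset Edg) : ℝ := ∑ e ∈ I D ρ, ind (Rk D F e k)

theorem near_card (D : Dm) (ρ : ℕ) (v : Vtx) :
    ∑ e ∈ I D ρ, ind (sd (src e) v < ρ) ≤ 2 * (2 * ρ + 1) ^ 2 := by
  classical
  have h1 : ∑ e ∈ I D ρ, ind (sd (src e) v < ρ) =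
      (((I D ρ).filter (fun e => sd (src e) v < ρ)).card : ℝ) := by
    rw [Finset.card_filter]
    push_cast
    refine Finset.sum_congr rfl fun e _ => ?_
    split_ifs with h
    · rw [ind_of h]
    · rw [ind_not_of h]
  rw [h1]
  have hsub : (I D ρ).filter (fun e => sd (src e) v < ρ) ⊆ Finset.Icc (v.1 - ρ) (v.1 + ρ) ×ˢ
      (Finset.Icc (v.2 - ρ) (v.2 + ρ) ×ˢ (Finset.univ : Finset Bool)) := by
    rintro ⟨x, y, b⟩ he
    rw [Finset.mem_filter, src_mk] at he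
    have h2 := he.2
    unfold sd at h2
    rw [max_lt_iff, abs_lt, abs_lt] at h2
    simp only at h2
    rw [Finset.mem_product, Finset.mem_product, Finset.mem_Icc, Finset.mem_Icc]
    exact ⟨by simp only; omega, by simp only; omega, Finset.mem_univ _⟩
  have h2 := Finset.card_le_card hsub
  rw [Finset.card_product, Finset.card_product, Int.card_Icc, Int.card_Icc, Finset.card_univ,
    Fintype.card_bool] at h2
  have e1 : (v.1 + ρ + 1 - (v.1 - ρ)).toNat = 2 * ρ + 1 := by omega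
  have e2 : (v.2 + ρ + 1 - (v.2 - ρ)).toNat = 2 * ρ + 1 := by omega
  rw [e1, e2] at h2
  calc (((I D ρ).filter (fun e => sd (src e) v < ρ)).card : ℝ) ≤
      (((2 * ρ + 1) * ((2 * ρ + 1) * 2) : ℕ) : ℝ) := by exact_mod_cast h2
    _ = 2 * (2 * ρ + 1) ^ 2 := by push_cast; ring

theorem rr_moment (hA : St_Aa) (hd : St_Ad) : ∃ C : ℝ, 0 < C ∧ ∀ (D : Dm) (n : ℝ) (ρ k : ℕ), Sz D n →
    2 ≤ ρ → E D.edges (rr D ρ k) ≤ C * ((ρ:ℝ) ^ (2:ℝ) + n ^ (2:ℝ) * (ρ : ℝ) ^ (-(5/4) : ℝ)) := by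
  obtain ⟨C, hC, h⟩ := exc_prob hA hd
  refine ⟨18 + 8 * C, by positivity, ?_⟩
  intro D n ρ k hs hρ
  have hρ2 : (2:ℝ) ≤ ρ := by exact_mod_cast hρ
  have hρ0 : 0 ≤ (ρ : ℝ) ^ (-(5/4) : ℝ) := by positivity
  have h1 : ∀ F, rr D ρ k F ≤ 2 * (2 * ρ + 1) ^ 2 + ∑ e ∈ I D ρ, ind (Exc D F e ρ) := by
    intro F
    refine le_trans ?_ (add_le_add_left (near_card D ρ (D.walk F k).1) _)
    unfold rr
    rw [← Finset.sum_add_distrib]
    refine Finset.sum_le_sum fun e _ => ?_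
    by_cases hR : Rk D F e k
    · rw [ind_of hR]
      by_cases hn : sd (src e) (D.walk F k).1 < ρ
      · rw [ind_of hn]
        linarith [ind_nonneg (P := Exc D F e ρ)]
      · have hE : Exc D F e ρ := by
          obtain ⟨i, l, h1, h2, h3, h4⟩ := hR
          refine ⟨i, k, l, h1, ?_, h3, h4, not_lt.1 hn⟩
          rcases h2.lt_or_eq with h5 | h5
          · exact h5
          · exfalso
            subst h5
            have := at_near h4
            omega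
        rw [ind_of hE]
        linarith [ind_nonneg (P := sd (src e) (D.walk F k).1 < ρ)]
    · rw [ind_not_of hR]
      exact add_nonneg (ind_nonneg _) (ind_nonneg _)
  have h2 : E D.edges (rr D ρ k) ≤
      E D.edges (fun F => 2 * (2 * ρ + 1) ^ 2 + ∑ e ∈ I D ρ, ind (Exc D F e ρ)) :=
    Ex_mono okh fun F _ => h1 F
  have h3 : E D.edges (fun F => 2 * (2 * (ρ:ℝ) + 1) ^ 2 + ∑ e ∈ I D ρ, ind (Exc D F e ρ)) =
      2 * (2 * ρ + 1) ^ 2 + ∑ e ∈ I D ρ, P D.edges (fun F => Exc D F e ρ) := by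
    unfold E
    rw [Ex_add, Ex_const, Ex_sum]
    rfl
  rw [h3] at h2
  have h4 : ∑ e ∈ I D ρ, P D.edges (fun F => Exc D F e ρ) ≤
      8 * n ^ 2 * (C * (ρ : ℝ) ^ (-(5/4) : ℝ)) := by
    refine (Finset.sum_le_card_nsmul _ _ _ fun e he =>
      h D hs.ok e ρ (by omega) (mem_I.1 he).2).trans ?_
    rw [nsmul_eq_mul]
    refine mul_le_mul_of_nonneg_right ?_ (by positivity)
    refine le_trans ?_ (card_edges hs)
    exact_mod_cast Finset.card_filter_le _ _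
  have hn0 : 0 ≤ n := by linarith [hs.one]
  rw [Real.rpow_two, Real.rpow_two]
  have h5 : 0 ≤ n ^ 2 * (ρ : ℝ) ^ (-(5/4) : ℝ) := by positivity
  have h6 : 0 ≤ C * (ρ:ℝ) ^ 2 := by positivity
  nlinarith

/-! ## the boundary -/

/-- number of times at which no interior edge is examined -/
noncomputable def Bn (D : Dm) (ρ : ℕ) (F : Finset Edg) : ℝ :=
  ∑ i ∈ Finset.range (D.len F), ind (ae (D.walk F i) ∉ I D ρ)

theorem ae_int {D : Dm} {ρ : ℕ} (hρ : 1 ≤ ρ) {σ : St} (h : (ρ:ℤ) < D.bd σ.1) : ae σ ∈ I D ρ := by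
  rw [mem_I]
  obtain ⟨⟨x, y⟩, q⟩ := σ
  unfold Dm.bd at h ⊢
  unfold Dm.edges
  simp only at h
  cases q
  · rw [ae_ne, mem_RE_true, src_mk]; simp only; omega
  · rw [ae_nw, mem_RE_false, src_mk]; simp only; omega
  · rw [ae_sw, mem_RE_true, src_mk]; simp only; omega
  · rw [ae_se, mem_RE_false, src_mk]; simp only; omega

theorem Bn_moment {C : ℝ} (hC : 0 < C) (hU : TwoUp C (1/4)) : ∃ C' : ℝ, 0 < C' ∧
    ∀ (D : Dm) (n : ℝ) (ρ : ℕ), Sz D n → 1 ≤ ρ →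
      E D.edges (Bn D ρ) ≤ C' * ((ρ:ℝ) ^ (1/2 : ℝ) * n ^ (5/4 : ℝ)) := by
  refine ⟨4 * (8 * (1 + C / (1 - 3/4))), by positivity, ?_⟩
  intro D n ρ hs hρ
  have hρ1 : (1:ℝ) ≤ ρ := by exact_mod_cast hρ
  have h1 : ∀ F, F ⊆ D.edges → Bn D ρ F ≤
      ∑ σ ∈ D.states, ind (D.Vis F σ) * ind (D.bd σ.1 ≤ ρ) := by
    intro F hF
    rw [← Moments_sum hs.ok hF (fun σ => ind (D.bd σ.1 ≤ ρ))]
    unfold Bn
    rw [Finset.sum_range_succ]
    refine le_add_of_le_of_nonneg (Finset.sum_le_sum fun i _ => ?_) (ind_nonneg _)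
    by_cases h : D.bd (D.walk F i).1 ≤ ρ
    · rw [ind_of h]
      exact ind_le_one _
    · rw [ind_not_of h, ind_not_of]
      exact not_not.2 (ae_int hρ (not_le.1 h))
  have h2 : E D.edges (Bn D ρ) ≤ E D.edges (fun F => ∑ σ ∈ D.states,
      ind (D.Vis F σ) * ind (D.bd σ.1 ≤ ρ)) := Ex_mono okh h1
  rw [E_sum] at h2
  have h3 : ∀ σ ∈ D.states, E D.edges (fun F => ind (D.Vis F σ) * ind (D.bd σ.1 ≤ ρ)) ≤
      (ρ:ℝ) ^ (1/2 : ℝ) * ph C (3/4) (D.bd σ.1) := by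
    intro σ _
    have h4 : E D.edges (fun F => ind (D.Vis F σ) * ind (D.bd σ.1 ≤ ρ)) =
        P D.edges (fun F => D.Vis F σ) * ind (D.bd σ.1 ≤ ρ) := Ex_mul_right _ _ _ _
    rw [h4]
    have h5 := one_point hU hs.ok σ
    have hp0 : 0 ≤ P D.edges (fun F => D.Vis F σ) := Pr_nonneg okh _ _
    have hr : 1 ≤ (ρ:ℝ) ^ (1/2 : ℝ) := Real.one_le_rpow hρ1 (by norm_num)
    by_cases hb : D.bd σ.1 ≤ ρ
    · rw [ind_of hb, mul_one]
      refine h5.trans ?_
      unfold ph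
      split_ifs with h0
      · linarith
      · have hx : (0:ℝ) < ((D.bd σ.1 : ℤ) : ℝ) := by exact_mod_cast (not_le.1 h0)
        have hx2 : ((D.bd σ.1 : ℤ) : ℝ) ≤ ρ := by exact_mod_cast hb
        have e1 : ((D.bd σ.1 : ℤ) : ℝ) ^ (-(1/4) : ℝ) =
            ((D.bd σ.1 : ℤ) : ℝ) ^ (1/2 : ℝ) * ((D.bd σ.1 : ℤ) : ℝ) ^ (-(3/4) : ℝ) := by
          rw [← Real.rpow_add hx]
          norm_num
        rw [e1]
        have h6 : ((D.bd σ.1 : ℤ) : ℝ) ^ (1/2 : ℝ) ≤ (ρ:ℝ) ^ (1/2 : ℝ) :=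
          Real.rpow_le_rpow hx.le hx2 (by norm_num)
        have h7 : 0 ≤ C * ((D.bd σ.1 : ℤ) : ℝ) ^ (-(3/4) : ℝ) := by positivity
        nlinarith
    · rw [ind_not_of hb, mul_zero]
      exact mul_nonneg (by positivity) (ph_nonneg hC.le _)
  refine h2.trans ((Finset.sum_le_sum h3).trans ?_)
  rw [← Finset.mul_sum, Moments_four D (fun v => ph C (3/4) (D.bd v))]
  have h4 := suma_bd (b := 3/4) hC.le (by norm_num) (by norm_num) D n hs.ok hs.one hs.w hs.h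
  have h5 : (2 - 3/4 : ℝ) = 5/4 := by norm_num
  rw [h5] at h4
  have h6 : 0 ≤ (ρ:ℝ) ^ (1/2 : ℝ) := by positivity
  calc (ρ:ℝ) ^ (1/2 : ℝ) * (4 * ∑ v ∈ Finset.Icc D.l D.r ×ˢ Finset.Icc 0 D.h, ph C (3/4) (D.bd v))
      ≤ (ρ:ℝ) ^ (1/2 : ℝ) * (4 * (8 * (1 + C / (1 - 3/4)) * n ^ (5/4 : ℝ))) := by gcongr
    _ = _ := by ring

end Pool.Agent.Zk36.TT
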