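import Pool.Agent.Zk36.TT.Count

/-!
# Exploration path: open and closed edges
-/

set_option autoImplicit false

namespace Pool.Agent.Zk36.TT

open H974 Finset H342P H984P H984N H984P.SideAux Pool.Agent.W92.DP H12S H389NS

variable {D : Dm} {F : Finset Edg} {e f : Edg}

/-- sign of the state -/
noncomputable def ep (e : Edg) (F : Finset Edg) : ℝ := 2 * ind (e ∈ F) - 1

theorem ep_flip (e : Edg) (F : Finset Edg) : ep e (flip e F) = - ep e F := by
  unfold ep
  by_cases h : e ∈ F
  · have : ¬ e ∈ flip e F := fun h' => mem_flip_self.1 h' h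
    rw [ind_of h, ind_not_of this]
    ring
  · have : e ∈ flip e F := mem_flip_self.2 h
    rw [ind_not_of h, ind_of this]
    ring

theorem ep_flip_ne (h : e ≠ f) (F : Finset Edg) : ep e (flip f F) = ep e F := by
  unfold ep
  have h1 := mem_flip_ne (F := F) h
  by_cases h2 : e ∈ F
  · rw [ind_of h2, ind_of (h1.2 h2)]
  · rw [ind_not_of h2, ind_not_of (fun h' => h2 (h1.1 h'))]

theorem ep_abs (e : Edg) (F : Finset Edg) : |ep e F| = 1 := by
  unfold ep
  by_cases h : e ∈ F
  · rw [ind_of h]; norm_num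
  · rw [ind_not_of h]; norm_num

/-- `e` and then `f` are examined before `k` -/
def G (D : Dm) (e f : Edg) (k : ℕ) (F : Finset Edg) : Prop :=
  ∃ i t, i < t ∧ t < k ∧ At D F e i ∧ At D F f t ∧ ∀ s < t, ¬ At D F f s

theorem G_imp (hD : D.Ok) (hF : F ⊆ D.edges) (hf : f ∈ D.edges) {k : ℕ} (h : G D e f k F) :
    G D e f k (flip f F) := by
  obtain ⟨i, t, h1, h2, h3, h4, h5⟩ := h
  have ht := h4.1
  have hpre : ∀ j ≤ t, D.walk (flip f F) j = D.walk F j := fun j hj =>
    pre_eq (m := t) (fun s hs h' => h5 s hs ⟨by omega, h'⟩) hj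
  have hlen : t < D.len (flip f F) := by
    by_contra hc
    push Not at hc
    have h6 := len_stop hD (flip_sub hf hF)
    rw [hpre _ hc] at h6
    exact ne_stop (by omega) h6
  refine ⟨i, t, h1, h2, ⟨by omega, ?_⟩, ⟨hlen, ?_⟩, fun s hs hA => ?_⟩
  · rw [hpre i h1.le]; exact h3.2
  · rw [hpre t le_rfl]; exact h4.2
  · refine h5 s hs ⟨by omega, ?_⟩
    rw [← hpre s hs.le]
    exact hA.2

theorem G_iff (hD : D.Ok) (hF : F ⊆ D.edges) (hf : f ∈ D.edges) {k : ℕ} :
    G D e f k (flip f F) ↔ G D e f k F := by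
  refine ⟨fun h => ?_, G_imp hD hF hf⟩
  have := G_imp hD (flip_sub hf hF) hf h
  rwa [flip_flip] at this

theorem both (hef : e ≠ f) {k : ℕ} : (Pre D F e k ∧ Pre D F f k) ↔
    (G D e f k F ∨ G D f e k F) := by
  constructor
  · rintro ⟨h1, h2⟩
    obtain ⟨a, ha, ha'⟩ : ∃ a, (a < k ∧ At D F e a) ∧ ∀ s < a, ¬ At D F e s := by
      classical
      have h3 : ∃ a, a < k ∧ At D F e a := h1
      refine ⟨Nat.find h3, Nat.find_spec h3, fun s hs hA => Nat.find_min h3 hs ⟨?_, hA⟩⟩
      have := (Nat.find_spec h3).1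
      omega
    obtain ⟨b, hb, hb'⟩ : ∃ b, (b < k ∧ At D F f b) ∧ ∀ s < b, ¬ At D F f s := by
      classical
      have h3 : ∃ a, a < k ∧ At D F f a := h2
      refine ⟨Nat.find h3, Nat.find_spec h3, fun s hs hA => Nat.find_min h3 hs ⟨?_, hA⟩⟩
      have := (Nat.find_spec h3).1
      omega
    rcases Nat.lt_trichotomy a b with h | h | h
    · exact Or.inl ⟨a, b, h, hb.1, ha.2, hb.2, hb'⟩
    · subst h
      exact absurd (ha.2.2.symm.trans hb.2.2) hef
    · exact Or.inr ⟨b, a, h, ha.1, hb.2, ha.2, ha'⟩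
  · rintro (⟨i, t, h1, h2, h3, h4, -⟩ | ⟨i, t, h1, h2, h3, h4, -⟩)
    · exact ⟨⟨i, by omega, h3⟩, ⟨t, h2, h4⟩⟩
    · exact ⟨⟨t, h2, h4⟩, ⟨i, by omega, h3⟩⟩

theorem excl {k : ℕ} (h : G D e f k F) : ¬ G D f e k F := by
  rintro ⟨i', t', h1', h2', h3', h4', h5'⟩
  obtain ⟨i, t, h1, h2, h3, h4, h5⟩ := h
  have a1 : t ≤ i' := by
    by_contra hc
    exact h5 i' (not_le.1 hc) h3'
  have a2 : t' ≤ i := by
    by_contra hc
    exact h5' i (not_le.1 hc) h3
  omega

theorem split_G (hef : e ≠ f) (k : ℕ) (F : Finset Edg) :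
    ind (Pre D F e k) * ind (Pre D F f k) = ind (G D e f k F) + ind (G D f e k F) := by
  rw [← ind_and]
  by_cases h1 : G D e f k F
  · rw [ind_of h1, ind_not_of (excl h1), ind_of ((both hef).2 (Or.inl h1)), add_zero]
  · by_cases h2 : G D f e k F
    · rw [ind_not_of h1, ind_of h2, ind_of ((both hef).2 (Or.inr h2)), zero_add]
    · rw [ind_not_of h1, ind_not_of h2, ind_not_of (fun h => ?_), add_zero]
      rcases (both hef).1 h with h3 | h3
      · exact h1 h3
      · exact h2 h3

theorem orth1 (hD : D.Ok) (hf : f ∈ D.edges) (hef : e ≠ f) (k : ℕ) :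
    E D.edges (fun F => ep e F * ep f F * ind (G D e f k F)) = 0 := by
  have h1 := E_flip hf (fun F => ep e F * ep f F * ind (G D e f k F))
  have h2 : E D.edges (fun F => ep e (flip f F) * ep f (flip f F) * ind (G D e f k (flip f F))) =
      E D.edges (fun F => -1 * (ep e F * ep f F * ind (G D e f k F))) := by
    apply Ex_congr
    intro F hF
    rw [ep_flip, ep_flip_ne hef]
    have h3 := G_iff (e := e) hD hF hf (k := k)
    by_cases h4 : G D e f k F
    · rw [ind_of h4, ind_of (h3.2 h4)]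
      ring
    · rw [ind_not_of h4, ind_not_of (fun h => h4 (h3.1 h))]
      ring
  have h3 : E D.edges (fun F => -1 * (ep e F * ep f F * ind (G D e f k F))) =
      - E D.edges (fun F => ep e F * ep f F * ind (G D e f k F)) := by
    unfold E
    rw [Ex_mul_left]
    ring
  have h4 : E D.edges (fun F => ep e (flip f F) * ep f (flip f F) * ind (G D e f k (flip f F))) =
    E D.edges (fun F => ep e F * ep f F * ind (G D e f k F)) := h1
  linarith

theorem orth (hD : D.Ok) (he : e ∈ D.edges) (hf : f ∈ D.edges) (hef : e ≠ f) (k : ℕ) :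
    E D.edges (fun F => (ep e F * ind (Pre D F e k)) * (ep f F * ind (Pre D F f k))) = 0 := by
  have h1 := orth1 hD hf hef k
  have h2 := orth1 hD he hef.symm k
  have h3 : E D.edges (fun F => (ep e F * ind (Pre D F e k)) * (ep f F * ind (Pre D F f k))) =
      E D.edges (fun F => ep e F * ep f F * ind (G D e f k F)) +
      E D.edges (fun F => ep f F * ep e F * ind (G D f e k F)) := by
    unfold E
    rw [← Ex_add]
    apply Ex_congr
    intro F _
    have := split_G (D := D) hef k F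
    linear_combination (ep e F * ep f F) * this
  rw [h3, h1, h2, add_zero]

open Classical in
/-- the free edges -/
noncomputable def J (D : Dm) : Finset Edg := D.edges.filter (fun e => e ∉ D.wir)

/-- open minus closed free edges examined before `k` -/
noncomputable def Xk (D : Dm) (k : ℕ) (F : Finset Edg) : ℝ :=
  ∑ e ∈ J D, ep e F * ind (Pre D F e k)

theorem Xk_moment {n : ℝ} (hs : Sz D n) (k : ℕ) :
    E D.edges (fun F => Xk D k F ^ 2) ≤ 8 * n ^ 2 := by
  classical
  have e1 : E D.edges (fun F => Xk D k F ^ 2) = ∑ e ∈ J D, ∑ f ∈ J D,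
      E D.edges (fun F => (ep e F * ind (Pre D F e k)) * (ep f F * ind (Pre D F f k))) := by
    have : (fun F => Xk D k F ^ 2) = fun F => ∑ e ∈ J D, ∑ f ∈ J D,
        (ep e F * ind (Pre D F e k)) * (ep f F * ind (Pre D F f k)) := by
      funext F
      unfold Xk
      rw [sq, Finset.sum_mul_sum]
    rw [this, E_sum]
    exact Finset.sum_congr rfl fun e _ => E_sum _ _
  have e2 : ∀ e ∈ J D, ∑ f ∈ J D,
      E D.edges (fun F => (ep e F * ind (Pre D F e k)) * (ep f F * ind (Pre D F f k))) ≤ 1 := by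
    intro e he
    have he' : e ∈ D.edges := (Finset.mem_filter.1 he).1
    rw [Finset.sum_eq_single_of_mem e he]
    · refine Ex_le_of_le okh fun F _ => ?_
      refine (le_abs_self _).trans ?_
      rw [abs_mul, abs_mul, ep_abs, one_mul, abs_of_nonneg (ind_nonneg _)]
      exact mul_le_one₀ (ind_le_one _) (ind_nonneg _) (ind_le_one _)
    · intro f hf hne
      exact orth hs.ok he' (Finset.mem_filter.1 hf).1 (Ne.symm hne) k
  rw [e1]
  refine (Finset.sum_le_card_nsmul _ _ _ e2).trans ?_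
  rw [nsmul_eq_mul, mul_one]
  refine le_trans ?_ (card_edges hs)
  exact_mod_cast Finset.card_filter_le _ _

theorem I_sub_J {ρ : ℕ} (hρ : 1 ≤ ρ) : I D ρ ⊆ J D := by
  classical
  intro e he
  unfold J
  rw [Finset.mem_filter]
  exact ⟨(mem_I.1 he).1, I_nwir hρ he⟩

/-- open edges against all edges -/
theorem count_open {ρ : ℕ} (hρ : 1 ≤ ρ) {k : ℕ} (hk : k ≤ D.len F) :
    |2 * ((discO D F k).card : ℝ) - (disc D F k).card| ≤ |Xk D k F| + Bn D ρ F := by
  classical
  have h1 : 2 * ((discO D F k).card : ℝ) - (disc D F k).card =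
      ∑ e ∈ disc D F k, (2 * ind (e ∈ D.cfg F) - 1) := by
    rw [Finset.sum_sub_distrib, ← Finset.mul_sum, Finset.sum_const, nsmul_eq_mul, mul_one]
    congr 2
    unfold discO
    rw [Finset.card_filter]
    push_cast
    refine Finset.sum_congr rfl fun e _ => ?_
    split_ifs with h
    · rw [ind_of h]
    · rw [ind_not_of h]
  have h2 : Xk D k F = ∑ e ∈ disc D F k, ind (e ∈ J D) * ep e F := by
    unfold Xk
    have h3 : ∑ e ∈ J D, ep e F * ind (Pre D F e k) = ∑ e ∈ J D ∩ disc D F k, ep e F := by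
      rw [← Finset.filter_mem_eq_inter, Finset.sum_filter]
      refine Finset.sum_congr rfl fun e _ => ?_
      by_cases h : Pre D F e k
      · rw [ind_of h, if_pos ((mem_disc' hk).2 h), mul_one]
      · rw [ind_not_of h, if_neg (fun h' => h ((mem_disc' hk).1 h')), mul_zero]
    rw [h3, Finset.inter_comm, ← Finset.filter_mem_eq_inter, Finset.sum_filter]
    refine Finset.sum_congr rfl fun e _ => ?_
    split_ifs with h
    · rw [ind_of h, one_mul]
    · rw [ind_not_of h, zero_mul]
  have h3 : |∑ e ∈ disc D F k, (2 * ind (e ∈ D.cfg F) - 1) - Xk D k F| ≤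
      ∑ e ∈ disc D F k, ind (e ∉ I D ρ) := by
    rw [h2, ← Finset.sum_sub_distrib]
    refine (Finset.abs_sum_le_sum_abs _ _).trans (Finset.sum_le_sum fun e he => ?_)
    by_cases hJ : e ∈ J D
    · have hw : e ∉ D.wir := (Finset.mem_filter.1 hJ).2
      have h4 : (e ∈ D.cfg F) ↔ e ∈ F := by
        unfold Dm.cfg
        simp [hw]
      have h5 : ind (e ∈ D.cfg F) = ind (e ∈ F) := by
        by_cases h6 : e ∈ F
        · rw [ind_of h6, ind_of (h4.2 h6)]
        · rw [ind_not_of h6, ind_not_of (fun h => h6 (h4.1 h))]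
      rw [ind_of hJ, h5]
      unfold ep
      rw [one_mul, sub_self, abs_zero]
      exact ind_nonneg _
    · have h4 : e ∉ I D ρ := fun h => hJ (I_sub_J hρ h)
      rw [ind_not_of hJ, ind_of h4, zero_mul, sub_zero]
      by_cases h5 : e ∈ D.cfg F
      · rw [ind_of h5]; norm_num
      · rw [ind_not_of h5]; norm_num
  have h4 : ∑ e ∈ disc D F k, ind (e ∉ I D ρ) ≤ Bn D ρ F := by
    have h5 : ∑ e ∈ disc D F k, ind (e ∉ I D ρ) ≤
        ∑ i ∈ Finset.range k, ind (ae (D.walk F i) ∉ I D ρ) := by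
      unfold disc
      exact Finset.sum_image_le_of_nonneg (fun _ _ => ind_nonneg _)
    refine h5.trans ?_
    unfold Bn
    exact Finset.sum_le_sum_of_subset_of_nonneg (Finset.range_mono hk) fun _ _ _ => ind_nonneg _
  rw [h1]
  have h5 : |∑ e ∈ disc D F k, (2 * ind (e ∈ D.cfg F) - 1)| ≤
      |∑ e ∈ disc D F k, (2 * ind (e ∈ D.cfg F) - 1) - Xk D k F| + |Xk D k F| := by
    have := abs_add_le (∑ e ∈ disc D F k, (2 * ind (e ∈ D.cfg F) - 1) - Xk D k F) (Xk D k F)
    rwa [sub_add_cancel] at this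
  linarith

end Pool.Agent.Zk36.TT
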