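import Pool.Agent.Zk36.TT.Flip

/-!
# Exploration path: once or twice
-/

set_option autoImplicit false

namespace Pool.Agent.Zk36.TT

open H974 Finset H342P H984P H984N H984P.SideAux

variable {D : Dm} {F : Finset Edg} {e f : Edg}

/-- examined exactly once, at the time `i` -/
def Once (D : Dm) (F : Finset Edg) (e : Edg) (i : ℕ) : Prop := At D F e i ∧ ∀ k, At D F e k → k = i

/-- examined at the times `i < l` -/
def Twice (D : Dm) (F : Finset Edg) (e : Edg) (i l : ℕ) : Prop := i < l ∧ At D F e i ∧ At D F e l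

theorem tricho (D : Dm) (F : Finset Edg) (e : Edg) :
    (∀ i, ¬ At D F e i) ∨ (∃ i, Once D F e i) ∨ ∃ i l, Twice D F e i l := by
  by_cases h : ∃ i, At D F e i
  · right
    obtain ⟨i, hi⟩ := h
    by_cases h2 : ∀ k, At D F e k → k = i
    · exact Or.inl ⟨i, hi, h2⟩
    · push Not at h2
      obtain ⟨k, hk, hne⟩ := h2
      rcases Nat.lt_or_gt_of_ne hne with h3 | h3
      · exact Or.inr ⟨k, i, h3, hk, hi⟩
      · exact Or.inr ⟨i, k, h3, hi, hk⟩
  · left
    push Not at h
    exact h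

theorem Twice.iff (hD : D.Ok) (hF : F ⊆ D.edges) {i l : ℕ} (h : Twice D F e i l) (k : ℕ) :
    At D F e k ↔ k = i ∨ k = l :=
  ⟨fun h' => at_two hD hF h.2.1 h.2.2 h' h.1.ne,
    fun h' => by rcases h' with rfl | rfl; exacts [h.2.1, h.2.2]⟩

theorem Once.iff {i : ℕ} (h : Once D F e i) (k : ℕ) : At D F e k ↔ k = i :=
  ⟨h.2 k, fun h' => h' ▸ h.1⟩

theorem Once.flip (hD : D.Ok) (hF : F ⊆ D.edges) (he : e ∈ D.edges) (hw : e ∉ D.wir) {i : ℕ}
    (h : Once D F e i) : ∃ l, Twice D (flip e F) e i l := by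
  obtain ⟨l, h1, h2, h3⟩ := once_twice hD hF he hw h.1 h.2
  exact ⟨l, h1, h2, h3⟩

theorem Twice.flip (hD : D.Ok) (hF : F ⊆ D.edges) (hw : e ∉ D.wir) {i l : ℕ}
    (h : Twice D F e i l) : Once D (flip e F) e i :=
  ⟨(cut_at hD hF hw h.1 h.2.1 h.2.2 i).2 rfl, fun k hk => (cut_at hD hF hw h.1 h.2.1 h.2.2 k).1 hk⟩

open Classical in
/-- number of times in `[k, len)` at which `e` is examined -/
noncomputable def cnt (D : Dm) (F : Finset Edg) (e : Edg) (k : ℕ) : ℕ :=
  ((Finset.Ico k (D.len F)).filter (fun i => ae (D.walk F i) = e)).card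

/-- examined before the time `k` -/
def Pre (D : Dm) (F : Finset Edg) (e : Edg) (k : ℕ) : Prop := ∃ i < k, At D F e i

theorem cnt_eq (D : Dm) (F : Finset Edg) (e : Edg) (k : ℕ) (s : Finset ℕ)
    (h : ∀ i, i ∈ s ↔ k ≤ i ∧ At D F e i) : cnt D F e k = s.card := by
  classical
  unfold cnt
  congr 1
  ext i
  rw [h, Finset.mem_filter, Finset.mem_Ico]
  unfold At
  tauto

theorem cnt_none (h : ∀ i, ¬ At D F e i) (k : ℕ) : cnt D F e k = 0 := by
  rw [cnt_eq D F e k ∅ (fun i => by simp [h i])]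
  rfl

theorem cnt_once {i : ℕ} (h : Once D F e i) (k : ℕ) :
    cnt D F e k = if k ≤ i then 1 else 0 := by
  split_ifs with hk
  · rw [cnt_eq D F e k {i} (fun j => by rw [h.iff, Finset.mem_singleton]; constructor
                                        · rintro rfl; exact ⟨hk, rfl⟩
                                        · exact fun h => h.2)]
    rfl
  · rw [cnt_eq D F e k ∅ (fun j => by
      rw [h.iff]
      constructor
      · intro h'; simp at h'
      · rintro ⟨h1, rfl⟩; exact absurd h1 hk)]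
    rfl

theorem cnt_twice (hD : D.Ok) (hF : F ⊆ D.edges) {i l : ℕ} (h : Twice D F e i l) (k : ℕ) :
    cnt D F e k = if k ≤ i then 2 else if k ≤ l then 1 else 0 := by
  have hil := h.1
  split_ifs with hk hk2
  · rw [cnt_eq D F e k {i, l} (fun j => by
      rw [h.iff hD hF, Finset.mem_insert, Finset.mem_singleton]
      constructor
      · intro h1
        exact ⟨by omega, h1⟩
      · exact fun h => h.2)]
    rw [Finset.card_pair hil.ne]
  · rw [cnt_eq D F e k {l} (fun j => by
      rw [h.iff hD hF, Finset.mem_singleton]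
      constructor
      · intro h1
        exact ⟨by omega, Or.inr h1⟩
      · rintro ⟨h1, h2⟩
        omega)]
    rfl
  · rw [cnt_eq D F e k ∅ (fun j => by
      rw [h.iff hD hF]
      constructor
      · intro h'; simp at h'
      · rintro ⟨h1, h2⟩; omega)]
    rfl

open Classical in
/-- `1` if `e` is not examined before `k` and exactly once after, `-1` if twice -/
noncomputable def xi (D : Dm) (k : ℕ) (e : Edg) (F : Finset Edg) : ℝ :=
  if Pre D F e k then 0 else if cnt D F e k = 1 then 1 else if cnt D F e k = 2 then -1 else 0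

theorem xi_none (h : ∀ i, ¬ At D F e i) (k : ℕ) : xi D k e F = 0 := by
  unfold xi
  rw [if_neg, cnt_none h]
  · simp
  · rintro ⟨i, -, hi⟩
    exact h i hi

theorem xi_once {i : ℕ} (h : Once D F e i) (k : ℕ) : xi D k e F = if k ≤ i then 1 else 0 := by
  unfold xi
  split_ifs with h1 h2 h3 h4 h5 h6 h7
  · obtain ⟨j, h3, h4⟩ := h1
    have := h.2 j h4
    omega
  · rfl
  · rfl
  · exfalso
    rw [cnt_once h, if_neg h4] at h3
    omega
  · exfalso
    rw [cnt_once h, if_pos h6] at h5
    omega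
  · exfalso
    rw [cnt_once h, if_neg h6] at h5
    omega
  · exfalso
    rw [cnt_once h, if_pos h7] at h3
    omega
  · rfl

theorem xi_twice (hD : D.Ok) (hF : F ⊆ D.edges) {i l : ℕ} (h : Twice D F e i l) (k : ℕ) :
    xi D k e F = if k ≤ i then -1 else 0 := by
  unfold xi
  have hc := cnt_twice hD hF h k
  have hil := h.1
  by_cases hk : k ≤ i
  · rw [if_pos hk] at hc ⊢
    rw [if_neg, hc]
    · norm_num
    · rintro ⟨j, h1, h2⟩
      have := (h.iff hD hF j).1 h2
      omega
  · rw [if_neg hk, if_pos]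
    exact ⟨i, by omega, h.2.1⟩

theorem xi_abs (k : ℕ) (e : Edg) (F : Finset Edg) : |xi D k e F| ≤ 1 := by
  unfold xi
  split_ifs <;> simp

/-- the sign changes -/
theorem xi_flip (hD : D.Ok) (hF : F ⊆ D.edges) (he : e ∈ D.edges) (hw : e ∉ D.wir) (k : ℕ) :
    xi D k e (flip e F) = - xi D k e F := by
  rcases tricho D F e with h | ⟨i, h⟩ | ⟨i, l, h⟩
  · rw [xi_none h, neg_zero]
    apply xi_none
    intro i hi
    obtain ⟨h1, h2⟩ := none_len hD hF h
    refine h i ⟨h1 ▸ hi.1, ?_⟩
    rw [← h2 i (by have := hi.1; omega)]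
    exact hi.2
  · obtain ⟨l, h2⟩ := h.flip hD hF he hw
    rw [xi_once h, xi_twice hD (flip_sub he hF) h2]
    split_ifs <;> simp
  · rw [xi_twice hD hF h, xi_once (h.flip hD hF hw)]
    split_ifs <;> simp

/-- `e` is examined twice, and `f` in between -/
def Tw (D : Dm) (F : Finset Edg) (e f : Edg) : Prop :=
  ∃ i j l, i < j ∧ j < l ∧ At D F e i ∧ At D F f j ∧ At D F e l

/-- the times at which `f` is examined after the change of `e` -/
theorem at_cut (hD : D.Ok) (hF : F ⊆ D.edges) (hw : e ∉ D.wir) {i l : ℕ} (h : Twice D F e i l)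
    (hef : f ≠ e) (j : ℕ) : At D (flip e F) f j ↔
      (j < i ∧ At D F f j) ∨ ∃ m, 1 ≤ m ∧ j = i + m ∧ At D F f (l + m) := by
  obtain ⟨h1, h2, h3, h4⟩ := cut hD hF hw h.1 h.2.1 h.2.2
  have hl1 := h.2.2.1
  have hi1 := h.2.1.1
  constructor
  · rintro ⟨g1, g2⟩
    rcases Nat.lt_trichotomy j i with g | g | g
    · left
      refine ⟨g, by omega, ?_⟩
      rw [← h2 j g.le]
      exact g2
    · exfalso
      subst g
      rw [h2 _ le_rfl] at g2
      exact hef (g2.symm.trans h.2.1.2)
    · right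
      refine ⟨j - i, by omega, by omega, by omega, ?_⟩
      rw [← h3 (j - i) (by omega) (by omega)]
      rw [show i + (j - i) = j by omega]
      exact g2
  · rintro (⟨g1, g2, g3⟩ | ⟨m, g1, rfl, g2, g3⟩)
    · refine ⟨by omega, ?_⟩
      rw [h2 j g1.le]
      exact g3
    · refine ⟨by omega, ?_⟩
      rw [h3 m g1 (by omega)]
      exact g3

theorem xi_same (hD : D.Ok) (hF : F ⊆ D.edges) (he : e ∈ D.edges) (hw : e ∉ D.wir) {i l k : ℕ}
    (h : Twice D F e i l) (hki : k ≤ i) (hef : f ≠ e) (hn : ¬ Tw D F e f) :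
    xi D k f (flip e F) = xi D k f F := by
  have hat := at_cut hD hF hw h hef
  have hil := h.1
  have hout : ∀ j, At D F f j → j < i ∨ l < j := by
    intro j hj
    by_contra hc
    push Not at hc
    have h1 : j ≠ i := by
      rintro rfl
      exact hef (hj.2.symm.trans h.2.1.2)
    have h2 : j ≠ l := by
      rintro rfl
      exact hef (hj.2.symm.trans h.2.2.2)
    exact hn ⟨i, j, l, by omega, by omega, h.2.1, hj, h.2.2⟩
  have hF' := flip_sub he hF
  -- the map of the times
  have hmap : ∀ j, At D F f j → ∃ j', At D (flip e F) f j' ∧ (k ≤ j ↔ k ≤ j') ∧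
      ((j < i ∧ j' = j) ∨ (l < j ∧ j' = j - (l - i))) := by
    intro j hj
    rcases hout j hj with h1 | h1
    · exact ⟨j, (hat j).2 (Or.inl ⟨h1, hj⟩), Iff.rfl, Or.inl ⟨h1, rfl⟩⟩
    · refine ⟨j - (l - i), (hat _).2 (Or.inr ⟨j - l, by omega, by omega, ?_⟩), by omega,
        Or.inr ⟨h1, rfl⟩⟩
      rw [show l + (j - l) = j by omega]
      exact hj
  have hback : ∀ j', At D (flip e F) f j' → ∃ j, At D F f j ∧
      ((j < i ∧ j' = j) ∨ (l < j ∧ j' = j - (l - i))) := by
    intro j' hj'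
    rcases (hat j').1 hj' with ⟨h1, h2⟩ | ⟨m, h1, h2, h3⟩
    · exact ⟨j', h2, Or.inl ⟨h1, rfl⟩⟩
    · exact ⟨l + m, h3, Or.inr ⟨by omega, by omega⟩⟩
  rcases tricho D F f with g | ⟨j, g⟩ | ⟨j1, j2, g⟩
  · rw [xi_none g]
    apply xi_none
    intro j' hj'
    obtain ⟨j, hj, -⟩ := hback j' hj'
    exact g j hj
  · obtain ⟨j', h1, h2, h3⟩ := hmap j g.1
    have h4 : Once D (flip e F) f j' := by
      refine ⟨h1, fun s hs => ?_⟩
      obtain ⟨t, ht, ht2⟩ := hback s hs
      have := g.2 t ht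
      omega
    rw [xi_once g, xi_once h4]
    by_cases hk : k ≤ j
    · rw [if_pos hk, if_pos (h2.1 hk)]
    · rw [if_neg hk, if_neg (fun h' => hk (h2.2 h'))]
  · obtain ⟨j1', h1, h2, h3⟩ := hmap j1 g.2.1
    obtain ⟨j2', h4, h5, h6⟩ := hmap j2 g.2.2
    have g1 := g.1
    have h7 : Twice D (flip e F) f j1' j2' := ⟨by omega, h1, h4⟩
    rw [xi_twice hD hF g, xi_twice hD hF' h7]
    by_cases hk : k ≤ j1
    · rw [if_pos hk, if_pos (h2.1 hk)]
    · rw [if_neg hk, if_neg (fun h' => hk (h2.2 h'))]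

/-- the product changes only if one of the two edges is examined during the excursion of the
other one -/
theorem prod_bound (hD : D.Ok) (hF : F ⊆ D.edges) (he : e ∈ D.edges) (hw : e ∉ D.wir)
    (hef : f ≠ e) (k : ℕ) :
    |xi D k e F * (xi D k f F - xi D k f (flip e F))| ≤
      2 * (ind (Tw D F e f) + ind (Tw D (flip e F) e f)) := by
  have hF' := flip_sub he hF
  have hA : |xi D k e F * (xi D k f F - xi D k f (flip e F))| ≤ 2 := by
    rw [abs_mul]
    have h1 := xi_abs (D := D) k e F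
    have h2 : |xi D k f F - xi D k f (flip e F)| ≤ 2 := by
      refine (abs_sub _ _).trans ?_
      have := xi_abs (D := D) k f F
      have := xi_abs (D := D) k f (flip e F)
      linarith
    calc _ ≤ 1 * 2 := mul_le_mul h1 h2 (abs_nonneg _) zero_le_one
      _ = 2 := one_mul 2
  have i1 := ind_nonneg (P := Tw D F e f)
  have i2 := ind_nonneg (P := Tw D (flip e F) e f)
  by_cases t1 : Tw D F e f
  · rw [ind_of t1] at i1 ⊢
    linarith
  by_cases t2 : Tw D (flip e F) e f
  · rw [ind_of t2] at i2 ⊢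
    linarith
  have h0 : xi D k e F * (xi D k f F - xi D k f (flip e F)) = 0 := by
    rcases tricho D F e with h | ⟨i, h⟩ | ⟨i, l, h⟩
    · rw [xi_none h, zero_mul]
    · by_cases hk : k ≤ i
      · obtain ⟨l, h2⟩ := h.flip hD hF he hw
        have h3 := xi_same hD hF' he hw h2 hk hef t2
        rw [flip_flip] at h3
        rw [h3, sub_self, mul_zero]
      · rw [xi_once h, if_neg hk, zero_mul]
    · by_cases hk : k ≤ i
      · rw [xi_same hD hF he hw h hk hef t1, sub_self, mul_zero]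
      · rw [xi_twice hD hF h, if_neg hk, zero_mul]
  rw [h0, abs_zero]
  linarith

end Pool.Agent.Zk36.TT
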